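import Mathlib
import Pool.Agent.Lib.MP_663568_nul.Sel

/-! Selberg's sieve in the setting of Mathlib's `BoundingSieve`, with remainders `≤ d`. -/

set_option autoImplicit false
open Finset

namespace Pool.Agent.FQ

open ArithmeticFunction BoundingSieve
open scoped ArithmeticFunction.Moebius

section Selberg

variable (s : BoundingSieve) (R : ℕ)

/-- the Selberg sum -/
noncomputable def Gs : ℝ :=
  ∑ l ∈ s.prodPrimes.divisors.filter (fun l => l ≤ R), s.selbergTerms l

/-- the Selberg weights -/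
noncomputable def ws (d : ℕ) : ℝ :=
  (μ d : ℝ) * (s.nu d)⁻¹ * ((Gs s R)⁻¹ *
    ∑ l ∈ (s.prodPrimes.divisors.filter (fun l => l ≤ R)).filter (fun l => d ∣ l),
      s.selbergTerms l)

lemma mem_dv {l : ℕ} (hl : l ∈ s.prodPrimes.divisors.filter (fun l => l ≤ R)) :
    l ∣ s.prodPrimes ∧ l ≤ R := by
  have := Finset.mem_filter.1 hl
  exact ⟨Nat.dvd_of_mem_divisors this.1, this.2⟩

lemma Gs_pos (hR : 1 ≤ R) : 0 < Gs s R := by
  unfold Gs
  apply Finset.sum_pos
  · intro l hl
    exact selbergTerms_pos (mem_dv s R hl).1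
  · exact ⟨1, by
      rw [Finset.mem_filter]
      exact ⟨Nat.one_mem_divisors.2 prodPrimes_ne_zero, hR⟩⟩

lemma ws_one (hR : 1 ≤ R) : ws s R 1 = 1 := by
  have h := Gs_pos s R hR
  unfold ws
  have h1 : (s.prodPrimes.divisors.filter (fun l => l ≤ R)).filter (fun l => 1 ∣ l)
      = s.prodPrimes.divisors.filter (fun l => l ≤ R) := by
    apply Finset.filter_true_of_mem
    intro x _
    exact one_dvd x
  rw [h1]
  change (μ 1 : ℝ) * (s.nu 1)⁻¹ * ((Gs s R)⁻¹ * Gs s R) = 1
  rw [inv_mul_cancel₀ h.ne', s.nu_mult.map_one]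
  simp

lemma ws_sum (l : ℕ) (hl : l ∈ s.prodPrimes.divisors) :
    ∑ d ∈ s.prodPrimes.divisors, (if l ∣ d then s.nu d * ws s R d else 0)
      = (Gs s R)⁻¹ * (if l ≤ R then (μ l : ℝ) * s.selbergTerms l else 0) := by
  have hP0 : s.prodPrimes ≠ 0 := prodPrimes_ne_zero
  have hl' := Nat.dvd_of_mem_divisors hl
  have hl0 : 0 < l := Nat.pos_of_mem_divisors hl
  have h1 : ∀ d ∈ s.prodPrimes.divisors, (if l ∣ d then s.nu d * ws s R d else 0)
      = (Gs s R)⁻¹ * ∑ m ∈ s.prodPrimes.divisors.filter (fun m => m ≤ R),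
        (if l ∣ d ∧ d ∣ m then (μ d : ℝ) * s.selbergTerms m else 0) := by
    intro d hd
    have hd' := Nat.dvd_of_mem_divisors hd
    by_cases h : l ∣ d
    · rw [if_pos h]
      simp only [h, true_and]
      rw [← Finset.sum_filter, ← Finset.mul_sum]
      unfold ws
      have := nu_ne_zero hd'
      field_simp
    · rw [if_neg h]
      simp [h]
  rw [Finset.sum_congr rfl h1, ← Finset.mul_sum, Finset.sum_comm]
  congr 1
  have h2 : ∀ m ∈ s.prodPrimes.divisors.filter (fun m => m ≤ R),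
      ∑ d ∈ s.prodPrimes.divisors, (if l ∣ d ∧ d ∣ m then (μ d : ℝ) * s.selbergTerms m else 0)
      = if l = m then (μ l : ℝ) * s.selbergTerms m else 0 := by
    intro m hm
    obtain ⟨hm1, hm2⟩ := mem_dv s R hm
    rw [← Finset.sum_filter]
    have h3 : s.prodPrimes.divisors.filter (fun d => l ∣ d ∧ d ∣ m)
        = m.divisors.filter (fun d => l ∣ d) := by
      ext d
      simp only [mem_filter, Nat.mem_divisors]
      constructor
      · rintro ⟨_, h5, h6⟩
        exact ⟨⟨h6, ne_zero_of_dvd_ne_zero hP0 hm1⟩, h5⟩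
      · rintro ⟨⟨h5, _⟩, h6⟩
        exact ⟨⟨h5.trans hm1, hP0⟩, h6, h5⟩
    rw [h3, ← Finset.sum_mul, Pool.Agent.Lib.MP_663568_nt.Nul.Sel.sum_moebius_between l m hl0
      (squarefree_of_dvd_prodPrimes hm1)]
    split_ifs <;> simp
  rw [Finset.sum_congr rfl h2]
  by_cases hlR : l ≤ R
  · rw [if_pos hlR, Finset.sum_ite_eq, if_pos]
    exact Finset.mem_filter.2 ⟨hl, hlR⟩
  · rw [if_neg hlR, Finset.sum_ite_eq, if_neg]
    intro h
    exact hlR (Finset.mem_filter.1 h).2

lemma main_ws (hR : 1 ≤ R) : s.mainSum (lambdaSquared (ws s R)) = (Gs s R)⁻¹ := by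
  have hG := Gs_pos s R hR
  rw [mainSum_lambdaSquared_eq_sum_mul_sum_sq]
  have h1 : ∀ l ∈ s.prodPrimes.divisors, (s.selbergTerms l)⁻¹ *
        (∑ d ∈ s.prodPrimes.divisors, if l ∣ d then s.nu d * ws s R d else 0) ^ 2
      = (Gs s R)⁻¹ ^ 2 * (if l ≤ R then s.selbergTerms l else 0) := by
    intro l hl
    have hl' := Nat.dvd_of_mem_divisors hl
    rw [ws_sum s R l hl]
    have h2 := selbergTerms_pos hl'
    by_cases hlR : l ≤ R
    · rw [if_pos hlR, if_pos hlR]
      have hmu : ((μ l : ℤ) : ℝ) ^ 2 = 1 := by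
        exact_mod_cast moebius_sq_eq_one_of_squarefree (squarefree_of_dvd_prodPrimes hl')
      rw [mul_pow, mul_pow, hmu]
      field_simp
    · rw [if_neg hlR, if_neg hlR]
      simp
  rw [Finset.sum_congr rfl h1, ← Finset.mul_sum, ← Finset.sum_filter]
  change (Gs s R)⁻¹ ^ 2 * Gs s R = _
  field_simp

lemma abs_ws (hR : 1 ≤ R) (hnu : ∀ d, d ∣ s.prodPrimes → (s.nu d)⁻¹ ≤ (d : ℝ)) (d : ℕ)
    (hd : d ∣ s.prodPrimes) : |ws s R d| ≤ if d ≤ R then (d : ℝ) else 0 := by
  have hG := Gs_pos s R hR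
  have hd0 : 0 < d := Nat.pos_of_ne_zero (ne_zero_of_dvd_ne_zero prodPrimes_ne_zero hd)
  have hn := nu_pos_of_dvd_prodPrimes hd
  by_cases hdR : d ≤ R
  · rw [if_pos hdR]
    unfold ws
    have h1 : |((μ d : ℤ) : ℝ)| ≤ 1 := by exact_mod_cast abs_moebius_le_one
    have h2 : 0 ≤ ∑ l ∈ (s.prodPrimes.divisors.filter (fun l => l ≤ R)).filter
        (fun l => d ∣ l), s.selbergTerms l := by
      apply Finset.sum_nonneg
      intro l hl
      exact (selbergTerms_pos (mem_dv s R (Finset.mem_filter.1 hl).1).1).le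
    have h3 : ∑ l ∈ (s.prodPrimes.divisors.filter (fun l => l ≤ R)).filter
        (fun l => d ∣ l), s.selbergTerms l ≤ Gs s R := by
      apply Finset.sum_le_sum_of_subset_of_nonneg (Finset.filter_subset _ _)
      intro l hl _
      exact (selbergTerms_pos (mem_dv s R hl).1).le
    rw [abs_mul, abs_mul, abs_of_pos (inv_pos.2 hn), abs_of_nonneg
      (mul_nonneg (inv_pos.2 hG).le h2)]
    have h4 : (Gs s R)⁻¹ * ∑ l ∈ (s.prodPrimes.divisors.filter (fun l => l ≤ R)).filter
        (fun l => d ∣ l), s.selbergTerms l ≤ 1 := by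
      calc _ ≤ (Gs s R)⁻¹ * Gs s R := mul_le_mul_of_nonneg_left h3 (inv_pos.2 hG).le
        _ = 1 := inv_mul_cancel₀ hG.ne'
    calc |((μ d : ℤ) : ℝ)| * (s.nu d)⁻¹ * _ ≤ 1 * (s.nu d)⁻¹ * 1 := by
          apply mul_le_mul _ h4 (mul_nonneg (inv_pos.2 hG).le h2)
            (mul_nonneg zero_le_one (inv_pos.2 hn).le)
          exact mul_le_mul_of_nonneg_right h1 (inv_pos.2 hn).le
      _ ≤ d := by rw [one_mul, mul_one]; exact hnu d hd
  · rw [if_neg hdR]
    unfold ws
    have h1 : (s.prodPrimes.divisors.filter (fun l => l ≤ R)).filter (fun l => d ∣ l) = ∅ := by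
      rw [Finset.filter_eq_empty_iff]
      intro l hl hdl
      obtain ⟨h1, h2⟩ := mem_dv s R hl
      have hl0 : 0 < l := Nat.pos_of_ne_zero (ne_zero_of_dvd_ne_zero prodPrimes_ne_zero h1)
      exact hdR ((Nat.le_of_dvd hl0 hdl).trans h2)
    rw [h1]
    simp

lemma err_ws (hR : 1 ≤ R) (hnu : ∀ d, d ∣ s.prodPrimes → (s.nu d)⁻¹ ≤ (d : ℝ))
    (hrem : ∀ d, d ∣ s.prodPrimes → |s.rem d| ≤ (d : ℝ)) :
    s.errSum (lambdaSquared (ws s R)) ≤ (R : ℝ) ^ 6 := by
  have hP0 : s.prodPrimes ≠ 0 := prodPrimes_ne_zero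
  unfold errSum
  have h1 : ∀ d ∈ s.prodPrimes.divisors, |lambdaSquared (ws s R) d| * |s.rem d|
      ≤ ∑ d1 ∈ s.prodPrimes.divisors, ∑ d2 ∈ s.prodPrimes.divisors,
        if d = Nat.lcm d1 d2 then (|ws s R d1| * d1) * (|ws s R d2| * d2) else 0 := by
    intro d hd
    have hd' := Nat.dvd_of_mem_divisors hd
    calc |lambdaSquared (ws s R) d| * |s.rem d|
        ≤ (∑ d1 ∈ d.divisors, ∑ d2 ∈ d.divisors,
          if d = Nat.lcm d1 d2 then |ws s R d1| * |ws s R d2| else 0) * d := by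
          apply mul_le_mul _ (hrem d hd') (abs_nonneg _)
          · apply Finset.sum_nonneg; intro _ _
            apply Finset.sum_nonneg; intro _ _
            split_ifs <;> positivity
          · unfold lambdaSquared
            refine (Finset.abs_sum_le_sum_abs _ _).trans ?_
            apply Finset.sum_le_sum; intro d1 _
            refine (Finset.abs_sum_le_sum_abs _ _).trans ?_
            apply Finset.sum_le_sum; intro d2 _
            split_ifs
            · rw [abs_mul]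
            · simp
      _ = ∑ d1 ∈ d.divisors, ∑ d2 ∈ d.divisors,
          if d = Nat.lcm d1 d2 then |ws s R d1| * |ws s R d2| * d else 0 := by
          rw [Finset.sum_mul]
          apply Finset.sum_congr rfl; intro d1 _
          rw [Finset.sum_mul]
          apply Finset.sum_congr rfl; intro d2 _
          split_ifs <;> simp
      _ ≤ ∑ d1 ∈ d.divisors, ∑ d2 ∈ d.divisors,
          if d = Nat.lcm d1 d2 then (|ws s R d1| * d1) * (|ws s R d2| * d2) else 0 := by
          apply Finset.sum_le_sum; intro d1 hd1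
          apply Finset.sum_le_sum; intro d2 hd2
          split_ifs with h
          · have h2 : (d : ℝ) ≤ d1 * d2 := by
              rw [h]
              have h3 : Nat.lcm d1 d2 ≤ d1 * d2 := Nat.le_of_dvd
                (Nat.mul_pos (Nat.pos_of_mem_divisors hd1) (Nat.pos_of_mem_divisors hd2))
                (Nat.lcm_dvd_mul d1 d2)
              exact_mod_cast h3
            calc |ws s R d1| * |ws s R d2| * d ≤ |ws s R d1| * |ws s R d2| * (d1 * d2) := by
                  gcongr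
              _ = _ := by ring
          · exact le_refl _
      _ ≤ _ := by
          have hsub : d.divisors ⊆ s.prodPrimes.divisors := Nat.divisors_subset_of_dvd hP0 hd'
          have hnn : ∀ d1 d2 : ℕ, 0 ≤ (if d = Nat.lcm d1 d2 then
              (|ws s R d1| * d1) * (|ws s R d2| * (d2 : ℝ)) else 0) := by
            intro d1 d2; split_ifs <;> positivity
          refine (Finset.sum_le_sum (fun d1 _ =>
            Finset.sum_le_sum_of_subset_of_nonneg hsub (fun d2 _ _ => hnn d1 d2))).trans ?_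
          exact Finset.sum_le_sum_of_subset_of_nonneg hsub
            (fun d1 _ _ => Finset.sum_nonneg (fun d2 _ => hnn d1 d2))
  refine (Finset.sum_le_sum h1).trans ?_
  rw [Finset.sum_comm]
  have h2 : ∀ d1 ∈ s.prodPrimes.divisors, ∑ d ∈ s.prodPrimes.divisors,
      ∑ d2 ∈ s.prodPrimes.divisors,
        (if d = Nat.lcm d1 d2 then (|ws s R d1| * d1) * (|ws s R d2| * (d2 : ℝ)) else 0)
      ≤ (|ws s R d1| * d1) * ∑ d2 ∈ s.prodPrimes.divisors, |ws s R d2| * (d2 : ℝ) := by
    intro d1 _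
    rw [Finset.sum_comm, Finset.mul_sum]
    apply Finset.sum_le_sum; intro d2 _
    rw [Finset.sum_ite_eq']
    split_ifs
    · exact le_refl _
    · positivity
  refine (Finset.sum_le_sum h2).trans ?_
  rw [← Finset.sum_mul]
  have h3 : ∑ d2 ∈ s.prodPrimes.divisors, |ws s R d2| * (d2 : ℝ) ≤ (R : ℝ) ^ 3 := by
    calc ∑ d2 ∈ s.prodPrimes.divisors, |ws s R d2| * (d2 : ℝ)
        ≤ ∑ d2 ∈ s.prodPrimes.divisors, (if d2 ≤ R then (R : ℝ) ^ 2 else 0) := by
          apply Finset.sum_le_sum; intro d hd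
          have h4 := abs_ws s R hR hnu d (Nat.dvd_of_mem_divisors hd)
          split_ifs with h5
          · rw [if_pos h5] at h4
            have h6 : (d : ℝ) ≤ R := by exact_mod_cast h5
            calc |ws s R d| * (d : ℝ) ≤ R * R := by
                  apply mul_le_mul (h4.trans h6) h6 (Nat.cast_nonneg _) (Nat.cast_nonneg _)
              _ = (R : ℝ) ^ 2 := by ring
          · rw [if_neg h5] at h4
            have : |ws s R d| = 0 := le_antisymm h4 (abs_nonneg _)
            rw [this, zero_mul]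
      _ = ((s.prodPrimes.divisors.filter (fun l => l ≤ R)).card : ℝ) * (R : ℝ) ^ 2 := by
          rw [← Finset.sum_filter, Finset.sum_const, nsmul_eq_mul]
      _ ≤ (R : ℝ) * (R : ℝ) ^ 2 := by
          gcongr
          have h5 : s.prodPrimes.divisors.filter (fun l => l ≤ R) ⊆ Finset.Icc 1 R := by
            intro l hl
            have := Finset.mem_filter.1 hl
            exact Finset.mem_Icc.2 ⟨Nat.pos_of_mem_divisors this.1, this.2⟩
          have := Finset.card_le_card h5
          simpa using this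
      _ = (R : ℝ) ^ 3 := by ring
  have h4 : 0 ≤ ∑ d2 ∈ s.prodPrimes.divisors, |ws s R d2| * (d2 : ℝ) :=
    Finset.sum_nonneg (fun _ _ => by positivity)
  calc _ ≤ (R : ℝ) ^ 3 * (R : ℝ) ^ 3 := mul_le_mul h3 h3 h4 (by positivity)
    _ = _ := by ring

/-- **Selberg's sieve.** -/
theorem selberg (hR : 1 ≤ R) (hnu : ∀ d, d ∣ s.prodPrimes → (s.nu d)⁻¹ ≤ (d : ℝ))
    (hrem : ∀ d, d ∣ s.prodPrimes → |s.rem d| ≤ (d : ℝ)) :
    s.siftedSum ≤ s.totalMass * (Gs s R)⁻¹ + (R : ℝ) ^ 6 := by
  refine (siftedSum_le_mainSum_errSum_of_upperMoebius _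
    (upperMoebius_lambdaSquared (ws s R) (ws_one s R hR))).trans ?_
  rw [main_ws s R hR]
  have := err_ws s R hR hnu hrem
  linarith

end Selberg

end Pool.Agent.FQ
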