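import Mathlib
import Pool.Agent.Lib.MP_663568_nul.Sel
import Pool.Agent.Lib.MP_f006b0_nt_h92.Sb

/-! Lower bound for the Selberg sum in dimension four. -/

set_option autoImplicit false
open Finset

namespace Pool.Agent.FQ

open ArithmeticFunction BoundingSieve
open Pool.Agent.Lib.MP_663568_nt.Nul.Sel (SC GG)

/-- sums over products of distinct elements of `P` up to `B` -/
noncomputable def TT (P : Finset ℕ) (f : ℕ → ℝ) (B : ℝ) : ℝ :=
  ∑ C ∈ P.powerset, if ((∏ p ∈ C, p : ℕ) : ℝ) ≤ B then ∏ p ∈ C, f p else 0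

lemma TT_nonneg (P : Finset ℕ) (f : ℕ → ℝ) (hf : ∀ p ∈ P, 0 ≤ f p) (B : ℝ) : 0 ≤ TT P f B := by
  unfold TT
  apply Finset.sum_nonneg
  intro C hC
  split_ifs
  · exact Finset.prod_nonneg (fun p hp => hf p (Finset.mem_powerset.1 hC hp))
  · exact le_refl _

lemma TT_insert (P : Finset ℕ) (p : ℕ) (hp : p ∉ P) (hp0 : 0 < p) (f : ℕ → ℝ) (B : ℝ) :
    TT (insert p P) f B = TT P f B + f p * TT P f (B / p) := by
  unfold TT
  rw [Finset.sum_powerset_insert hp, Finset.mul_sum]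
  congr 1
  apply Finset.sum_congr rfl
  intro C hC
  have hpC : p ∉ C := fun h => hp (Finset.mem_powerset.1 hC h)
  have hp' : (0 : ℝ) < p := by exact_mod_cast hp0
  rw [Finset.prod_insert hpC, Finset.prod_insert hpC]
  have h1 : (((p * ∏ x ∈ C, x : ℕ) : ℝ) ≤ B) ↔ (((∏ x ∈ C, x : ℕ) : ℝ) ≤ B / p) := by
    rw [le_div_iff₀ hp', Nat.cast_mul, mul_comm]
  simp only [h1]
  split_ifs <;> simp

lemma TT_mono (P : Finset ℕ) (f : ℕ → ℝ) (hf : ∀ p ∈ P, 0 ≤ f p) {B B' : ℝ} (h : B ≤ B') :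
    TT P f B ≤ TT P f B' := by
  unfold TT
  apply Finset.sum_le_sum
  intro C hC
  have h1 : 0 ≤ ∏ p ∈ C, f p :=
    Finset.prod_nonneg (fun p hp => hf p (Finset.mem_powerset.1 hC hp))
  split_ifs with h2 h3 h3
  · exact le_refl _
  · exact absurd (h2.trans h) h3
  · exact h1
  · exact le_refl _

lemma TT_monof (P : Finset ℕ) (f g : ℕ → ℝ) (hf : ∀ p ∈ P, 0 ≤ f p) (hfg : ∀ p ∈ P, f p ≤ g p)
    (B : ℝ) : TT P f B ≤ TT P g B := by
  unfold TT
  apply Finset.sum_le_sum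
  intro C hC
  split_ifs
  · exact Finset.prod_le_prod (fun p hp => hf p (Finset.mem_powerset.1 hC hp))
      (fun p hp => hfg p (Finset.mem_powerset.1 hC hp))
  · exact le_refl _

lemma TT_mul (P : Finset ℕ) (hP : ∀ p ∈ P, 1 ≤ p) (f g : ℕ → ℝ) (hf : ∀ p ∈ P, 0 ≤ f p)
    (hg : ∀ p ∈ P, 0 ≤ g p) : ∀ B B' : ℝ, 0 ≤ B → 0 ≤ B' →
    TT P f B * TT P g B' ≤ TT P (fun p => f p + g p + f p * g p) (B * B') := by
  induction P using Finset.induction_on with
  | empty =>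
    intro B B' hB hB'
    simp only [TT, Finset.powerset_empty, Finset.sum_singleton, Finset.prod_empty, Nat.cast_one]
    split_ifs with h1 h2 h3 h3 h3 <;> try norm_num
    exact h3 (by nlinarith)
  | insert p S hp ih =>
    intro B B' hB hB'
    have hS : ∀ q ∈ S, 1 ≤ q := fun q hq => hP q (Finset.mem_insert_of_mem hq)
    have hfS : ∀ q ∈ S, 0 ≤ f q := fun q hq => hf q (Finset.mem_insert_of_mem hq)
    have hgS : ∀ q ∈ S, 0 ≤ g q := fun q hq => hg q (Finset.mem_insert_of_mem hq)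
    have ih' := ih hS hfS hgS
    have hp1 : 1 ≤ p := hP p (Finset.mem_insert_self _ _)
    have hpR : (1 : ℝ) ≤ p := by exact_mod_cast hp1
    have hfp := hf p (Finset.mem_insert_self _ _)
    have hgp := hg p (Finset.mem_insert_self _ _)
    rw [TT_insert S p hp hp1, TT_insert S p hp hp1, TT_insert S p hp hp1]
    have hh : ∀ q ∈ S, 0 ≤ f q + g q + f q * g q := fun q hq => by
      have := hfS q hq; have := hgS q hq; positivity
    have a1 := ih' B B' hB hB'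
    have a2 := ih' (B / p) B' (by positivity) hB'
    have a3 := ih' B (B' / p) hB (by positivity)
    have a4 := ih' (B / p) (B' / p) (by positivity) (by positivity)
    have e2 : B / p * B' = B * B' / p := by ring
    have e3 : B * (B' / p) = B * B' / p := by ring
    have e4 : B / p * (B' / p) ≤ B * B' / p := by
      rw [div_mul_div_comm]
      apply div_le_div_of_nonneg_left (by positivity) (by positivity)
      nlinarith
    have a5 := TT_mono S _ hh e4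
    rw [e2] at a2
    rw [e3] at a3
    have a6 := a4.trans a5
    have b2 := mul_le_mul_of_nonneg_left a2 hfp
    have b3 := mul_le_mul_of_nonneg_left a3 hgp
    have b4 := mul_le_mul_of_nonneg_left a6 (mul_nonneg hfp hgp)
    nlinarith

lemma TT_sq (P : Finset ℕ) (hP : ∀ p ∈ P, 1 ≤ p) (f : ℕ → ℝ) (hf : ∀ p ∈ P, 0 ≤ f p) (B : ℝ)
    (hB : 0 ≤ B) : TT P f B ^ 2 ≤ TT P (fun p => (1 + f p) ^ 2 - 1) (B ^ 2) := by
  have h := TT_mul P hP f f hf hf B B hB hB
  have e : (fun p => f p + f p + f p * f p) = (fun p => (1 + f p) ^ 2 - 1) := by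
    funext p; ring
  rw [e] at h
  rw [sq, sq B]
  exact h

lemma TT_pow4 (P : Finset ℕ) (hP : ∀ p ∈ P, 1 ≤ p) (f : ℕ → ℝ) (hf : ∀ p ∈ P, 0 ≤ f p) (B : ℝ)
    (hB : 0 ≤ B) : TT P f B ^ 4 ≤ TT P (fun p => (1 + f p) ^ 4 - 1) (B ^ 4) := by
  have h1 := TT_sq P hP f hf B hB
  have hF : ∀ p ∈ P, 0 ≤ (1 + f p) ^ 2 - 1 := fun p hp => by
    have := hf p hp; nlinarith
  have h2 := TT_sq P hP (fun p => (1 + f p) ^ 2 - 1) hF (B ^ 2) (by positivity)
  have e : (fun p => (1 + ((1 + f p) ^ 2 - 1)) ^ 2 - 1) = (fun p => (1 + f p) ^ 4 - 1) := by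
    funext p; ring
  rw [e] at h2
  calc TT P f B ^ 4 = (TT P f B ^ 2) ^ 2 := by ring
    _ ≤ (TT P (fun p => (1 + f p) ^ 2 - 1) (B ^ 2)) ^ 2 := by
        apply pow_le_pow_left₀ (by positivity) h1
    _ ≤ _ := h2
    _ = _ := by rw [← pow_mul]

lemma inv_phi (k : ℕ) (hk : Squarefree k) :
    (1 : ℝ) / (Nat.totient k : ℝ) = ∏ p ∈ k.primeFactors, (1 / ((p : ℝ) - 1)) := by
  have h6 : (Nat.totient k : ℝ) = (k : ℝ) * ∏ p ∈ k.primeFactors, (1 - (p : ℝ)⁻¹) := by
    have h2' := congrArg (fun q : ℚ => (q : ℝ)) (Nat.totient_eq_mul_prod_factors k)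
    push_cast at h2'
    exact h2'
  have h7 : (k : ℝ) = ∏ p ∈ k.primeFactors, (p : ℝ) := by
    have := congrArg (Nat.cast : ℕ → ℝ) (Nat.prod_primeFactors_of_squarefree hk)
    rw [Nat.cast_prod] at this
    exact this.symm
  have h8 : (Nat.totient k : ℝ) = ∏ p ∈ k.primeFactors, ((p : ℝ) - 1) := by
    rw [h6]
    nth_rewrite 1 [h7]
    rw [← Finset.prod_mul_distrib]
    apply Finset.prod_congr rfl
    intro p hp
    have : (0 : ℝ) < p := by exact_mod_cast (Nat.prime_of_mem_primeFactors hp).pos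
    field_simp
  rw [h8, one_div, ← Finset.prod_inv_distrib]
  apply Finset.prod_congr rfl
  intro p _
  rw [one_div]

lemma GG_le_TT (q y : ℕ) (P : Finset ℕ) (hP : ∀ p ∈ P, 2 ≤ p)
    (hPP : ∀ p, p.Prime → p ≤ y → ¬ p ∣ q → p ∈ P) :
    GG q y ≤ TT P (fun p => 1 / ((p : ℝ) - 1)) y := by
  classical
  unfold GG TT
  have hinj : Set.InjOn (fun k : ℕ => k.primeFactors)
      (((Icc 1 y).filter (fun k => SC q k) : Finset ℕ) : Set ℕ) := by
    intro k hk k' hk' hkk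
    have h1 := (Finset.mem_filter.1 (Finset.mem_coe.1 hk)).2.1
    have h2 := (Finset.mem_filter.1 (Finset.mem_coe.1 hk')).2.1
    simp only at hkk
    rw [← Nat.prod_primeFactors_of_squarefree h1, ← Nat.prod_primeFactors_of_squarefree h2, hkk]
  set Φ : Finset ℕ → ℝ := fun C : Finset ℕ => if ((∏ p ∈ C, p : ℕ) : ℝ) ≤ y then
          ∏ p ∈ C, (1 / ((p : ℝ) - 1)) else 0 with hΦ
  have h1 : ∀ k ∈ (Icc 1 y).filter (fun k => SC q k), (1 : ℝ) / (Nat.totient k : ℝ)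
      = Φ k.primeFactors := by
    intro k hk
    obtain ⟨h1, h2⟩ := Finset.mem_filter.1 hk
    rw [hΦ]
    simp only
    rw [if_pos, inv_phi k h2.1]
    rw [Nat.prod_primeFactors_of_squarefree h2.1]
    exact_mod_cast (Finset.mem_Icc.1 h1).2
  rw [Finset.sum_congr rfl h1, ← Finset.sum_image (f := Φ) hinj]
  change _ ≤ ∑ C ∈ P.powerset, Φ C
  apply Finset.sum_le_sum_of_subset_of_nonneg
  · intro C hC
    obtain ⟨k, hk, rfl⟩ := Finset.mem_image.1 hC
    obtain ⟨h1, h2⟩ := Finset.mem_filter.1 hk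
    rw [Finset.mem_powerset]
    intro p hp
    have hpp := Nat.prime_of_mem_primeFactors hp
    have hpk := Nat.dvd_of_mem_primeFactors hp
    apply hPP p hpp ((Nat.le_of_dvd (Finset.mem_Icc.1 h1).1 hpk).trans (Finset.mem_Icc.1 h1).2)
    intro hpq
    have := Nat.dvd_gcd hpk hpq
    have h3 : Nat.gcd k q = 1 := h2.2
    rw [h3] at this
    exact hpp.one_lt.ne' (Nat.dvd_one.1 this)
  · intro C hC _
    rw [hΦ]
    simp only
    split_ifs
    · apply Finset.prod_nonneg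
      intro p hp
      have := hP p (Finset.mem_powerset.1 hC hp)
      have : (2 : ℝ) ≤ p := by exact_mod_cast this
      apply div_nonneg zero_le_one; linarith
    · exact le_refl _

lemma TT_le_Gs (s : BoundingSieve) (P : Finset ℕ) (hP : ∀ p ∈ P, p.Prime)
    (hs : s.prodPrimes = ∏ p ∈ P, p) (R : ℕ) :
    TT P (fun p => s.nu p * (1 - s.nu p)⁻¹) R ≤ Gs s R := by
  classical
  unfold TT Gs
  rw [← Finset.sum_filter]
  have hinj : Set.InjOn (fun C : Finset ℕ => ∏ p ∈ C, p)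
      ((P.powerset.filter (fun C => ((∏ p ∈ C, p : ℕ) : ℝ) ≤ R) : Finset (Finset ℕ)) :
        Set (Finset ℕ)) := by
    intro C hC D hD h
    have h1 := Finset.mem_powerset.1 (Finset.mem_filter.1 (Finset.mem_coe.1 hC)).1
    have h2 := Finset.mem_powerset.1 (Finset.mem_filter.1 (Finset.mem_coe.1 hD)).1
    simp only at h
    rw [← Nat.primeFactors_prod (fun p hp => hP p (h1 hp)),
      ← Nat.primeFactors_prod (fun p hp => hP p (h2 hp)), h]
  have hdv : ∀ C ∈ P.powerset, (∏ p ∈ C, p) ∣ s.prodPrimes := by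
    intro C hC
    rw [hs]
    exact Finset.prod_dvd_prod_of_subset _ _ _ (Finset.mem_powerset.1 hC)
  have h1 : ∀ C ∈ P.powerset.filter (fun C => ((∏ p ∈ C, p : ℕ) : ℝ) ≤ R),
      ∏ p ∈ C, (s.nu p * (1 - s.nu p)⁻¹) = s.selbergTerms (∏ p ∈ C, p) := by
    intro C hC
    have h1 := (Finset.mem_filter.1 hC).1
    rw [selbergTerms_apply, ← prod_primeFactors_nu (hdv C h1), Nat.primeFactors_prod
      (fun p hp => hP p (Finset.mem_powerset.1 h1 hp)), Finset.prod_mul_distrib]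
  rw [Finset.sum_congr rfl h1, ← Finset.sum_image hinj]
  apply Finset.sum_le_sum_of_subset_of_nonneg
  · intro l hl
    obtain ⟨C, hC, rfl⟩ := Finset.mem_image.1 hl
    obtain ⟨h1, h2⟩ := Finset.mem_filter.1 hC
    rw [Finset.mem_filter, Nat.mem_divisors]
    exact ⟨⟨hdv C h1, prodPrimes_ne_zero⟩, by exact_mod_cast h2⟩
  · intro l hl _
    exact (selbergTerms_pos (mem_dv s R hl).1).le

/-- the lower bound for the Selberg sum in dimension four -/
theorem Gs_lower (s : BoundingSieve) (P : Finset ℕ) (hP : ∀ p ∈ P, p.Prime) (hP5 : ∀ p ∈ P, 5 ≤ p)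
    (hs : s.prodPrimes = ∏ p ∈ P, p) (hnu : ∀ p ∈ P, s.nu p = 4 / (p : ℝ)) (q y : ℕ) (hq : 1 ≤ q)
    (hPP : ∀ p, p.Prime → p ≤ y → ¬ p ∣ q → p ∈ P) :
    (((Nat.totient q : ℝ) / q) * Real.log (y + 1 : ℕ)) ^ 4 ≤ Gs s (y ^ 4) := by
  have hqR : (0 : ℝ) < q := by exact_mod_cast hq
  have hphi : (0 : ℝ) < (Nat.totient q : ℝ) := by exact_mod_cast Nat.totient_pos.2 hq
  have h1 := Pool.Agent.Lib.MP_663568_nt.Nul.Sel.log_le q y hq
  have h2 : ((Nat.totient q : ℝ) / q) * Real.log (y + 1 : ℕ) ≤ GG q y := by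
    calc ((Nat.totient q : ℝ) / q) * Real.log (y + 1 : ℕ)
        ≤ ((Nat.totient q : ℝ) / q) * (((q : ℝ) / Nat.totient q) * GG q y) :=
          mul_le_mul_of_nonneg_left h1 (by positivity)
      _ = GG q y := by field_simp
  have h0 : 0 ≤ Real.log (y + 1 : ℕ) := Real.log_natCast_nonneg _
  have h3 := GG_le_TT q y P (fun p hp => (hP p hp).two_le) hPP
  have hf : ∀ p ∈ P, 0 ≤ (fun p : ℕ => 1 / ((p : ℝ) - 1)) p := by
    intro p hp
    have : (5 : ℝ) ≤ p := by exact_mod_cast hP5 p hp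
    apply div_nonneg zero_le_one; linarith
  have h4 := TT_pow4 P (fun p hp => (hP p hp).one_lt.le) (fun p => 1 / ((p : ℝ) - 1)) hf y
    (Nat.cast_nonneg _)
  have h5 := TT_le_Gs s P hP hs (y ^ 4)
  have hF : ∀ p ∈ P, 0 ≤ (fun p : ℕ => (1 + 1 / ((p : ℝ) - 1)) ^ 4 - 1) p := by
    intro p hp
    have h := hf p hp
    simp only at h ⊢
    have : 1 ≤ (1 + 1 / ((p : ℝ) - 1)) ^ 4 := one_le_pow₀ (by linarith)
    linarith
  have h6 := TT_monof P (fun p => (1 + 1 / ((p : ℝ) - 1)) ^ 4 - 1)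
    (fun p => s.nu p * (1 - s.nu p)⁻¹) hF (by
      intro p hp
      have h5 : (5 : ℝ) ≤ p := by exact_mod_cast hP5 p hp
      rw [hnu p hp]
      have hb : 0 < (p : ℝ) - 4 := by linarith
      have e1 : 4 / (p : ℝ) * (1 - 4 / (p : ℝ))⁻¹ = 4 / ((p : ℝ) - 4) := by
        have : (p : ℝ) ≠ 0 := by linarith
        field_simp
      rw [e1]
      have e2 : 1 + 1 / ((p : ℝ) - 1) = p / ((p : ℝ) - 1) := by
        have : (p : ℝ) - 1 ≠ 0 := by linarith
        field_simp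
        ring
      rw [e2, div_pow]
      have e3 : (4 : ℝ) / ((p : ℝ) - 4) = p / ((p : ℝ) - 4) - 1 := by
        field_simp; ring
      rw [e3]
      apply sub_le_sub_right
      rw [div_le_div_iff₀ (by apply pow_pos; linarith) hb]
      nlinarith [sq_nonneg ((p : ℝ) - 1), sq_nonneg (p : ℝ)]) ((y : ℝ) ^ 4)
  calc _ ≤ (GG q y) ^ 4 := pow_le_pow_left₀ (by positivity) h2 4
    _ ≤ (TT P (fun p => 1 / ((p : ℝ) - 1)) y) ^ 4 := by
        apply pow_le_pow_left₀ _ h3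
        unfold GG
        exact Finset.sum_nonneg (fun _ _ => by positivity)
    _ ≤ _ := h4
    _ ≤ _ := h6
    _ ≤ _ := by exact_mod_cast h5

end Pool.Agent.FQ
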