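import Mathlib
import Pool.Agent.Lib.MP_f006b0_nt_h92.Crt
import Pool.Agent.Lib.MP_f006b0_nt_h92.Gl

/-! Sieve upper bound for prime quadruples with given gaps. -/

set_option autoImplicit false
open Finset

namespace Pool.Agent.FQ

open ArithmeticFunction BoundingSieve
open Pool.Agent.Lib.MP_663568_nt.Nul.Sel (SC GG)

/-- the product of the four linear forms -/
def FF (h1 h2 h3 n : ℕ) : ℕ := n * (n + h1) * (n + (h1 + h2)) * (n + (h1 + h2 + h3))

/-- six times the product of the differences -/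
def qq (h1 h2 h3 : ℕ) : ℕ :=
  6 * (h1 * (h1 + h2) * (h1 + h2 + h3) * h2 * (h2 + h3) * h3)

lemma qq_pos {h1 h2 h3 : ℕ} (H1 : 1 ≤ h1) (H2 : 1 ≤ h2) (H3 : 1 ≤ h3) : 1 ≤ qq h1 h2 h3 := by
  unfold qq
  have : 0 < 6 * (h1 * (h1 + h2) * (h1 + h2 + h3) * h2 * (h2 + h3) * h3) := by positivity
  exact this

lemma not_dvd_qq {p h1 h2 h3 : ℕ} (hq : ¬ p ∣ qq h1 h2 h3) :
    ¬ p ∣ 6 ∧ ¬ p ∣ h1 ∧ ¬ p ∣ (h1 + h2) ∧ ¬ p ∣ (h1 + h2 + h3) ∧ ¬ p ∣ h2 ∧ ¬ p ∣ (h2 + h3)
      ∧ ¬ p ∣ h3 := by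
  unfold qq at hq
  refine ⟨fun h => hq ?_, fun h => hq ?_, fun h => hq ?_, fun h => hq ?_, fun h => hq ?_,
    fun h => hq ?_, fun h => hq ?_⟩ <;> obtain ⟨c, hc⟩ := h
  · exact ⟨c * (h1 * (h1 + h2) * (h1 + h2 + h3) * h2 * (h2 + h3) * h3), by rw [hc]; ring⟩
  · exact ⟨6 * (c * (h1 + h2) * (h1 + h2 + h3) * h2 * (h2 + h3) * h3), by
      nth_rewrite 1 [hc]; ring⟩
  · exact ⟨6 * (h1 * c * (h1 + h2 + h3) * h2 * (h2 + h3) * h3), by
      nth_rewrite 1 [hc]; ring⟩
  · exact ⟨6 * (h1 * (h1 + h2) * c * h2 * (h2 + h3) * h3), by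
      nth_rewrite 1 [hc]; ring⟩
  · exact ⟨6 * (h1 * (h1 + h2) * (h1 + h2 + h3) * c * (h2 + h3) * h3), by
      have : 6 * (h1 * (h1 + h2) * (h1 + h2 + h3) * h2 * (h2 + h3) * h3)
        = h2 * (6 * (h1 * (h1 + h2) * (h1 + h2 + h3) * (h2 + h3) * h3)) := by ring
      rw [this]; nth_rewrite 1 [hc]; ring⟩
  · exact ⟨6 * (h1 * (h1 + h2) * (h1 + h2 + h3) * h2 * c * h3), by
      have : 6 * (h1 * (h1 + h2) * (h1 + h2 + h3) * h2 * (h2 + h3) * h3)
        = (h2 + h3) * (6 * (h1 * (h1 + h2) * (h1 + h2 + h3) * h2 * h3)) := by ring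
      rw [this]; nth_rewrite 1 [hc]; ring⟩
  · exact ⟨6 * (h1 * (h1 + h2) * (h1 + h2 + h3) * h2 * (h2 + h3) * c), by
      have : 6 * (h1 * (h1 + h2) * (h1 + h2 + h3) * h2 * (h2 + h3) * h3)
        = h3 * (6 * (h1 * (h1 + h2) * (h1 + h2 + h3) * h2 * (h2 + h3))) := by ring
      rw [this]; nth_rewrite 1 [hc]; ring⟩

lemma five_le {p h1 h2 h3 : ℕ} (hp : p.Prime) (hq : ¬ p ∣ qq h1 h2 h3) : 5 ≤ p := by
  have h6 := (not_dvd_qq hq).1
  by_contra h
  have : p < 5 := by omega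
  interval_cases p
  · exact absurd hp (by norm_num)
  · exact absurd hp (by norm_num)
  · exact h6 (by norm_num)
  · exact h6 (by norm_num)
  · exact absurd hp (by norm_num)

lemma roots_card {p h1 h2 h3 : ℕ} (hp : p.Prime) (hq : ¬ p ∣ qq h1 h2 h3) :
    ((range p).filter (fun r => p ∣ FF h1 h2 h3 r)).card = 4 := by
  classical
  have : Fact p.Prime := ⟨hp⟩
  obtain ⟨-, d1, d12, d123, d2, d23, d3⟩ := not_dvd_qq hq
  have e1 : (h1 : ZMod p) ≠ 0 := fun h => d1 ((ZMod.natCast_eq_zero_iff _ _).1 h)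
  have e2 : (h2 : ZMod p) ≠ 0 := fun h => d2 ((ZMod.natCast_eq_zero_iff _ _).1 h)
  have e3 : (h3 : ZMod p) ≠ 0 := fun h => d3 ((ZMod.natCast_eq_zero_iff _ _).1 h)
  have e12 : (h1 : ZMod p) + h2 ≠ 0 := fun h => d12 ((ZMod.natCast_eq_zero_iff _ _).1 (by
    push_cast; exact h))
  have e23 : (h2 : ZMod p) + h3 ≠ 0 := fun h => d23 ((ZMod.natCast_eq_zero_iff _ _).1 (by
    push_cast; exact h))
  have e123 : (h1 : ZMod p) + h2 + h3 ≠ 0 := fun h => d123 ((ZMod.natCast_eq_zero_iff _ _).1 (by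
    push_cast; exact h))
  set Z : Finset (ZMod p) := {0, -(h1 : ZMod p), -((h1 : ZMod p) + h2),
    -((h1 : ZMod p) + h2 + h3)} with hZ
  have hZc : Z.card = 4 := by
    rw [hZ, Finset.card_insert_of_notMem, Finset.card_insert_of_notMem,
      Finset.card_insert_of_notMem, Finset.card_singleton]
    · simp only [Finset.mem_singleton, neg_inj]
      intro h
      apply e3
      linear_combination -h
    · simp only [Finset.mem_singleton, Finset.mem_insert, neg_inj, not_or]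
      refine ⟨fun h => e2 ?_, fun h => e23 ?_⟩
      · linear_combination -h
      · linear_combination -h
    · simp only [Finset.mem_singleton, Finset.mem_insert, not_or]
      refine ⟨fun h => e1 ?_, fun h => e12 ?_, fun h => e123 ?_⟩
      · linear_combination h
      · linear_combination h
      · linear_combination h
  have hFz : ∀ r : ℕ, p ∣ FF h1 h2 h3 r ↔ (r : ZMod p) ∈ Z := by
    intro r
    rw [← ZMod.natCast_eq_zero_iff]
    unfold FF
    push_cast
    simp only [hZ, Finset.mem_insert, Finset.mem_singleton, mul_eq_zero]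
    constructor
    · rintro (((h | h) | h) | h)
      · exact Or.inl h
      · exact Or.inr (Or.inl (by linear_combination h))
      · exact Or.inr (Or.inr (Or.inl (by linear_combination h)))
      · exact Or.inr (Or.inr (Or.inr (by linear_combination h)))
    · rintro (h | h | h | h)
      · exact Or.inl (Or.inl (Or.inl h))
      · exact Or.inl (Or.inl (Or.inr (by linear_combination h)))
      · exact Or.inl (Or.inr (by linear_combination h))
      · exact Or.inr (by linear_combination h)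
  have himg : (range p).filter (fun r => p ∣ FF h1 h2 h3 r) = Z.image ZMod.val := by
    ext r
    simp only [mem_filter, mem_range, mem_image]
    constructor
    · rintro ⟨h, h'⟩
      exact ⟨(r : ZMod p), (hFz r).1 h', ZMod.val_natCast_of_lt h⟩
    · rintro ⟨z, hz, rfl⟩
      refine ⟨ZMod.val_lt z, (hFz _).2 ?_⟩
      rw [ZMod.natCast_zmod_val]
      exact hz
  rw [himg, Finset.card_image_of_injective _ (ZMod.val_injective p), hZc]

lemma FF_strictMono (h1 h2 h3 : ℕ) {a b : ℕ} (ha : 1 ≤ a) (hab : a < b) :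
    FF h1 h2 h3 a < FF h1 h2 h3 b := by
  unfold FF
  have a1 : 0 < a := ha
  have e1 : a * (a + h1) < b * (b + h1) := by nlinarith
  have e2 : a * (a + h1) * (a + (h1 + h2)) < b * (b + h1) * (b + (h1 + h2)) :=
    Nat.mul_lt_mul_of_lt_of_le e1 (by omega) (by omega)
  exact Nat.mul_lt_mul_of_lt_of_le e2 (by omega) (by omega)

lemma FF_inj (h1 h2 h3 x : ℕ) : Set.InjOn (FF h1 h2 h3) ((Ico 1 (x + 1) : Finset ℕ) : Set ℕ) := by
  intro a ha b hb h
  have ha' := (Finset.mem_Ico.1 (Finset.mem_coe.1 ha)).1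
  have hb' := (Finset.mem_Ico.1 (Finset.mem_coe.1 hb)).1
  rcases lt_trichotomy a b with h' | h' | h'
  · exact absurd h (FF_strictMono h1 h2 h3 ha' h').ne
  · exact h'
  · exact absurd h.symm (FF_strictMono h1 h2 h3 hb' h').ne

/-- the sieving primes -/
def PS (q y : ℕ) : Finset ℕ := (range (y + 1)).filter (fun p => p.Prime ∧ ¬ p ∣ q)

lemma mem_PS {q y p : ℕ} : p ∈ PS q y ↔ p ≤ y ∧ p.Prime ∧ ¬ p ∣ q := by
  unfold PS
  rw [mem_filter, mem_range]
  constructor
  · rintro ⟨h1, h2, h3⟩; exact ⟨by omega, h2, h3⟩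
  · rintro ⟨h1, h2, h3⟩; exact ⟨by omega, h2, h3⟩

/-- the density -/
noncomputable def nu4 : ArithmeticFunction ℝ :=
  ArithmeticFunction.prodPrimeFactors (fun p => 4 / (p : ℝ))

lemma nu4_apply {d : ℕ} (hd : d ≠ 0) : nu4 d = ∏ p ∈ d.primeFactors, (4 / (p : ℝ)) := by
  unfold nu4
  rw [ArithmeticFunction.prodPrimeFactors_apply hd]

lemma nu4_prime {p : ℕ} (hp : p.Prime) : nu4 p = 4 / (p : ℝ) := by
  rw [nu4_apply hp.ne_zero, hp.primeFactors, Finset.prod_singleton]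

lemma sqf_prod (P : Finset ℕ) (hP : ∀ p ∈ P, p.Prime) : Squarefree (∏ p ∈ P, p) := by
  apply Finset.squarefree_prod_of_pairwise_isCoprime
  · intro p hp p' hp' hpp
    rw [Function.onFun, ← Nat.coprime_iff_isRelPrime]
    exact (Nat.coprime_primes (hP p hp) (hP p' hp')).2 hpp
  · intro p hp
    exact (hP p hp).squarefree

/-- the sieve problem -/
noncomputable def BS (x h1 h2 h3 y : ℕ) : BoundingSieve where
  support := (Ico 1 (x + 1)).image (FF h1 h2 h3)
  prodPrimes := ∏ p ∈ PS (qq h1 h2 h3) y, p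
  prodPrimes_squarefree := sqf_prod _ (fun p hp => (mem_PS.1 hp).2.1)
  weights := fun _ => 1
  weights_nonneg := fun _ => zero_le_one
  totalMass := x
  nu := nu4
  nu_mult := ArithmeticFunction.IsMultiplicative.prodPrimeFactors _
  nu_pos_of_prime := by
    intro p hp _
    rw [nu4_prime hp]
    have : (0 : ℝ) < p := by exact_mod_cast hp.pos
    positivity
  nu_lt_one_of_prime := by
    intro p hp hd
    rw [nu4_prime hp]
    have h1 : p ∈ PS (qq h1 h2 h3) y := by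
      obtain ⟨r, hr, hpr⟩ := (hp.prime.dvd_finsetProd_iff _).1 hd
      rwa [(Nat.prime_dvd_prime_iff_eq hp (mem_PS.1 hr).2.1).1 hpr]
    have h5 : (5 : ℝ) ≤ p := by exact_mod_cast five_le hp (mem_PS.1 h1).2.2
    rw [div_lt_one (by linarith)]
    linarith

lemma BS_mem {x h1 h2 h3 y d : ℕ} (hd : d ∣ (BS x h1 h2 h3 y).prodPrimes) {p : ℕ}
    (hp : p ∈ d.primeFactors) : p ≤ y ∧ p.Prime ∧ ¬ p ∣ qq h1 h2 h3 := by
  have hpp := Nat.prime_of_mem_primeFactors hp
  have h1 : p ∣ ∏ p ∈ PS (qq h1 h2 h3) y, p := (Nat.dvd_of_mem_primeFactors hp).trans hd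
  obtain ⟨r, hr, hpr⟩ := (hpp.prime.dvd_finsetProd_iff _).1 h1
  rw [(Nat.prime_dvd_prime_iff_eq hpp (mem_PS.1 hr).2.1).1 hpr]
  exact mem_PS.1 hr

lemma BS_rem (x h1 h2 h3 y d : ℕ) (hd : d ∣ (BS x h1 h2 h3 y).prodPrimes) :
    |(BS x h1 h2 h3 y).rem d| ≤ (d : ℝ) := by
  have hsq : Squarefree d := squarefree_of_dvd_prodPrimes hd
  have hd0 : d ≠ 0 := hsq.ne_zero
  have hmod : ∀ p k : ℕ, p ∣ FF h1 h2 h3 (k % p) ↔ p ∣ FF h1 h2 h3 k := by
    intro p k
    have e : FF h1 h2 h3 (k % p) ≡ FF h1 h2 h3 k [MOD p] := by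
      unfold FF
      have h0 : k % p ≡ k [MOD p] := Nat.mod_modEq k p
      exact ((h0.mul (h0.add_right _)).mul (h0.add_right _)).mul (h0.add_right _)
    exact e.dvd_iff (dvd_refl p)
  set A : ℕ → Finset ℕ := fun p => (range p).filter (fun r => ¬ p ∣ FF h1 h2 h3 r) with hA
  have hc := crtCount d.primeFactors (fun p hp => Nat.prime_of_mem_primeFactors hp)
    A (fun p _ => Finset.filter_subset _ _) 1 0 1 (x + 1) one_pos (Nat.coprime_one_left _)
    (by omega)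
  have hcard : ∀ p ∈ d.primeFactors, (1 - ((A p).card : ℝ) / p) = 4 / (p : ℝ) := by
    intro p hp
    obtain ⟨-, hpp, hpq⟩ := BS_mem hd hp
    have h4 := roots_card hpp hpq
    have h5 := Finset.card_filter_add_card_filter_not (s := range p)
      (fun r => p ∣ FF h1 h2 h3 r)
    rw [h4, Finset.card_range] at h5
    have hp0 : (0 : ℝ) < p := by exact_mod_cast hpp.pos
    have h6 : ((A p).card : ℝ) = (p : ℝ) - 4 := by
      have : (A p).card + 4 = p := by rw [hA]; simp only; omega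
      rw [eq_sub_iff_add_eq]
      exact_mod_cast this
    rw [h6]
    field_simp
    ring
  have hset : (Ico 1 (x + 1)).filter (fun k => k % 1 = 0 % 1 ∧ ∀ p ∈ d.primeFactors, k % p ∉ A p)
      = (Ico 1 (x + 1)).filter (fun k => d ∣ FF h1 h2 h3 k) := by
    apply Finset.filter_congr
    intro k _
    constructor
    · rintro ⟨_, h⟩
      rw [← Nat.prod_primeFactors_of_squarefree hsq]
      apply Finset.prod_primes_dvd
      · intro p hp
        exact (Nat.prime_of_mem_primeFactors hp).prime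
      · intro p hp
        have hpp := Nat.prime_of_mem_primeFactors hp
        have := h p hp
        rw [hA] at this
        simp only [mem_filter, mem_range, not_and, not_not] at this
        exact (hmod p k).1 (this (Nat.mod_lt _ hpp.pos))
    · intro h
      refine ⟨by simp [Nat.mod_one], ?_⟩
      intro p hp hmem
      rw [hA] at hmem
      simp only [mem_filter, mem_range] at hmem
      exact hmem.2 ((hmod p k).2 ((Nat.dvd_of_mem_primeFactors hp).trans h))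
  rw [hset, Finset.prod_congr rfl hcard] at hc
  have hprod : ∏ p ∈ d.primeFactors, (p : ℝ) = (d : ℝ) := by
    rw [← Nat.cast_prod, Nat.prod_primeFactors_of_squarefree hsq]
  rw [hprod] at hc
  have hms : (BS x h1 h2 h3 y).multSum d
      = (((Ico 1 (x + 1)).filter (fun k => d ∣ FF h1 h2 h3 k)).card : ℝ) := by
    change ∑ n ∈ (Ico 1 (x + 1)).image (FF h1 h2 h3), (if d ∣ n then (1 : ℝ) else 0) = _
    rw [Finset.sum_image (FF_inj h1 h2 h3 x), Finset.card_filter]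
    push_cast
    rfl
  unfold BoundingSieve.rem
  rw [hms]
  change |_ - nu4 d * (x : ℝ)| ≤ _
  rw [nu4_apply hd0]
  have e2 : (((x + 1 : ℕ) : ℝ) - ((1 : ℕ) : ℝ)) / ((1 : ℕ) : ℝ) = x := by
    push_cast; ring
  rw [e2] at hc
  rw [mul_comm (∏ p ∈ d.primeFactors, (4 / (p : ℝ)))]
  exact hc

lemma BS_nu (x h1 h2 h3 y d : ℕ) (hd : d ∣ (BS x h1 h2 h3 y).prodPrimes) :
    ((BS x h1 h2 h3 y).nu d)⁻¹ ≤ (d : ℝ) := by
  have hsq : Squarefree d := squarefree_of_dvd_prodPrimes hd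
  change (nu4 d)⁻¹ ≤ _
  rw [nu4_apply hsq.ne_zero, ← Finset.prod_inv_distrib]
  have hprod : ∏ p ∈ d.primeFactors, (p : ℝ) = (d : ℝ) := by
    rw [← Nat.cast_prod, Nat.prod_primeFactors_of_squarefree hsq]
  rw [← hprod]
  apply Finset.prod_le_prod
  · intro p _; positivity
  · intro p hp
    have hp0 : (0 : ℝ) < p := by exact_mod_cast (Nat.prime_of_mem_primeFactors hp).pos
    rw [inv_div]
    linarith

/-- **The sieve bound.** -/
theorem quad_count : ∃ C : ℝ, 0 < C ∧ ∀ x h1 h2 h3 : ℕ, 2 ≤ x → 1 ≤ h1 → 1 ≤ h2 → 1 ≤ h3 →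
    (((Icc 1 x).filter (fun n => n.Prime ∧ (n + h1).Prime ∧ (n + (h1 + h2)).Prime ∧
      (n + (h1 + h2 + h3)).Prime)).card : ℝ)
      ≤ C * (x / (Real.log x) ^ 4) * ((qq h1 h2 h3 : ℝ) / Nat.totient (qq h1 h2 h3)) ^ 4 := by
  refine ⟨48 ^ 4 + 8192, by norm_num, ?_⟩
  intro x h1 h2 h3 hx H1 H2 H3
  set q := qq h1 h2 h3 with hq
  have hq1 : 1 ≤ q := qq_pos H1 H2 H3
  have hqR : (0 : ℝ) < q := by exact_mod_cast hq1
  have hphi : (0 : ℝ) < (Nat.totient q : ℝ) := by exact_mod_cast Nat.totient_pos.2 hq1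
  have hxR : (2 : ℝ) ≤ x := by exact_mod_cast hx
  have hx0 : (0 : ℝ) < x := by linarith
  have hlog : 0 < Real.log x := Real.log_pos (by linarith)
  set z : ℝ := (x : ℝ) ^ (1 / 48 : ℝ) with hz
  have hz1 : 1 ≤ z := Real.one_le_rpow (by linarith) (by norm_num)
  set y := ⌊z⌋₊ with hy
  have hy1 : 1 ≤ y := Nat.le_floor (by simpa using hz1)
  have hyz : (y : ℝ) ≤ z := Nat.floor_le (by linarith)
  have hy1R : (1 : ℝ) ≤ y := by exact_mod_cast hy1
  have hz24 : z ^ 24 = Real.sqrt x := by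
    rw [hz, ← Real.rpow_natCast, ← Real.rpow_mul hx0.le, Real.sqrt_eq_rpow]
    norm_num
  have hy24 : (y : ℝ) ^ 24 ≤ Real.sqrt x := by
    rw [← hz24]; exact pow_le_pow_left₀ (by linarith) hyz 24
  have hyy : (y : ℝ) ≤ Real.sqrt x := by
    refine le_trans ?_ hy24
    exact le_self_pow₀ hy1R (by norm_num)
  have hlogy : Real.log x / 48 ≤ Real.log (y + 1 : ℕ) := by
    have h : z ≤ ((y + 1 : ℕ) : ℝ) := by
      push_cast
      exact (Nat.lt_floor_add_one z).le
    calc Real.log x / 48 = Real.log z := by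
          rw [hz, Real.log_rpow hx0]; ring
      _ ≤ _ := Real.log_le_log (by linarith) h
  have hR1 : 1 ≤ y ^ 4 := Nat.one_le_pow _ _ hy1
  have hsel := selberg (BS x h1 h2 h3 y) (y ^ 4) hR1 (BS_nu x h1 h2 h3 y) (BS_rem x h1 h2 h3 y)
  have hG := Gs_lower (BS x h1 h2 h3 y) (PS q y) (fun p hp => (mem_PS.1 hp).2.1)
    (fun p hp => five_le (mem_PS.1 hp).2.1 (mem_PS.1 hp).2.2) rfl
    (fun p hp => nu4_prime (mem_PS.1 hp).2.1) q y hq1
    (fun p hp h1 h2 => mem_PS.2 ⟨h1, hp, h2⟩)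
  have hGpos := Gs_pos (BS x h1 h2 h3 y) (y ^ 4) hR1
  have hG2 : (((Nat.totient q : ℝ) / q) * (Real.log x / 48)) ^ 4 ≤ Gs (BS x h1 h2 h3 y) (y ^ 4) := by
    refine le_trans ?_ hG
    apply pow_le_pow_left₀ (by positivity)
    exact mul_le_mul_of_nonneg_left hlogy (by positivity)
  have hinv : (Gs (BS x h1 h2 h3 y) (y ^ 4))⁻¹
      ≤ 48 ^ 4 / (Real.log x) ^ 4 * ((q : ℝ) / Nat.totient q) ^ 4 := by
    calc (Gs (BS x h1 h2 h3 y) (y ^ 4))⁻¹
        ≤ ((((Nat.totient q : ℝ) / q) * (Real.log x / 48)) ^ 4)⁻¹ :=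
          inv_anti₀ (by positivity) hG2
      _ = _ := by field_simp
  have hcount : (((Icc 1 x).filter (fun n => n.Prime ∧ (n + h1).Prime ∧ (n + (h1 + h2)).Prime ∧
      (n + (h1 + h2 + h3)).Prime)).card : ℝ) ≤ y + (BS x h1 h2 h3 y).siftedSum := by
    have hss : (BS x h1 h2 h3 y).siftedSum = (((Ico 1 (x + 1)).filter (fun k =>
        Nat.Coprime (∏ p ∈ PS q y, p) (FF h1 h2 h3 k))).card : ℝ) := by
      change ∑ n ∈ (Ico 1 (x + 1)).image (FF h1 h2 h3),
        (if Nat.Coprime (∏ p ∈ PS q y, p) n then (1 : ℝ) else 0) = _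
      rw [Finset.sum_image (FF_inj h1 h2 h3 x), Finset.card_filter]
      push_cast
      rfl
    rw [hss]
    have hsub : (Icc 1 x).filter (fun n => n.Prime ∧ (n + h1).Prime ∧ (n + (h1 + h2)).Prime ∧
      (n + (h1 + h2 + h3)).Prime) ⊆ (Icc 1 y) ∪ (Ico 1 (x + 1)).filter (fun k =>
        Nat.Coprime (∏ p ∈ PS q y, p) (FF h1 h2 h3 k)) := by
      intro n hn
      simp only [mem_filter, mem_Icc] at hn
      obtain ⟨⟨n1, n2⟩, p0, p1, p2, p3⟩ := hn
      rw [mem_union]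
      by_cases hny : n ≤ y
      · left; exact mem_Icc.2 ⟨n1, hny⟩
      · right
        rw [mem_filter, mem_Ico]
        refine ⟨⟨n1, by omega⟩, ?_⟩
        apply Nat.Coprime.prod_left
        intro p hp
        obtain ⟨hpy, hpp, hpq⟩ := mem_PS.1 hp
        rw [Nat.Prime.coprime_iff_not_dvd hpp]
        intro hd
        unfold FF at hd
        rcases (hpp.dvd_mul).1 hd with hd | hd
        · rcases (hpp.dvd_mul).1 hd with hd | hd
          · rcases (hpp.dvd_mul).1 hd with hd | hd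
            · have := (Nat.prime_dvd_prime_iff_eq hpp p0).1 hd; omega
            · have := (Nat.prime_dvd_prime_iff_eq hpp p1).1 hd; omega
          · have := (Nat.prime_dvd_prime_iff_eq hpp p2).1 hd; omega
        · have := (Nat.prime_dvd_prime_iff_eq hpp p3).1 hd; omega
    have hc1 := (Finset.card_le_card hsub).trans (Finset.card_union_le _ _)
    rw [Nat.card_Icc] at hc1
    have hc2 : (((Icc 1 x).filter (fun n => n.Prime ∧ (n + h1).Prime ∧ (n + (h1 + h2)).Prime ∧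
      (n + (h1 + h2 + h3)).Prime)).card : ℝ) ≤ ((y + 1 - 1 + ((Ico 1 (x + 1)).filter (fun k =>
        Nat.Coprime (∏ p ∈ PS q y, p) (FF h1 h2 h3 k))).card : ℕ) : ℝ) := by
      exact_mod_cast hc1
    refine hc2.trans ?_
    push_cast
    simp
  have hsq : 2 * Real.sqrt x ≤ 8192 * (x / (Real.log x) ^ 4) := by
    have h1 : Real.log x ≤ (x : ℝ) ^ (1 / 8 : ℝ) / (1 / 8) :=
      Real.log_le_rpow_div hx0.le (by norm_num)
    have h2 : (Real.log x) ^ 4 ≤ 4096 * Real.sqrt x := by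
      calc (Real.log x) ^ 4 ≤ ((x : ℝ) ^ (1 / 8 : ℝ) / (1 / 8)) ^ 4 :=
            pow_le_pow_left₀ hlog.le h1 4
        _ = 4096 * Real.sqrt x := by
            rw [div_pow, ← Real.rpow_natCast ((x : ℝ) ^ (1 / 8 : ℝ)), ← Real.rpow_mul hx0.le,
              Real.sqrt_eq_rpow]
            norm_num
            ring
    rw [← mul_div_assoc, le_div_iff₀ (by positivity)]
    have h3 : Real.sqrt x * Real.sqrt x = x := Real.mul_self_sqrt hx0.le
    nlinarith [Real.sqrt_nonneg (x : ℝ)]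
  have hrat : 1 ≤ ((q : ℝ) / Nat.totient q) ^ 4 := by
    apply one_le_pow₀
    rw [one_le_div hphi]
    exact_mod_cast Nat.totient_le q
  have hfin : (((y ^ 4 : ℕ) : ℝ)) ^ 6 ≤ Real.sqrt x := by
    push_cast
    rw [← pow_mul]
    exact hy24
  have htm : (BS x h1 h2 h3 y).totalMass = x := rfl
  rw [htm] at hsel
  have hmain : (x : ℝ) * (Gs (BS x h1 h2 h3 y) (y ^ 4))⁻¹
      ≤ 48 ^ 4 * (x / (Real.log x) ^ 4) * ((q : ℝ) / Nat.totient q) ^ 4 := by
    calc (x : ℝ) * (Gs (BS x h1 h2 h3 y) (y ^ 4))⁻¹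
        ≤ x * (48 ^ 4 / (Real.log x) ^ 4 * ((q : ℝ) / Nat.totient q) ^ 4) :=
          mul_le_mul_of_nonneg_left hinv hx0.le
      _ = _ := by ring
  have hpos : 0 ≤ x / (Real.log x) ^ 4 := by positivity
  calc _ ≤ (y : ℝ) + (BS x h1 h2 h3 y).siftedSum := hcount
    _ ≤ Real.sqrt x + (48 ^ 4 * (x / (Real.log x) ^ 4) * ((q : ℝ) / Nat.totient q) ^ 4
        + Real.sqrt x) := by linarith
    _ ≤ 48 ^ 4 * (x / (Real.log x) ^ 4) * ((q : ℝ) / Nat.totient q) ^ 4
        + 8192 * (x / (Real.log x) ^ 4) * 1 := by linarith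
    _ ≤ 48 ^ 4 * (x / (Real.log x) ^ 4) * ((q : ℝ) / Nat.totient q) ^ 4
        + 8192 * (x / (Real.log x) ^ 4) * ((q : ℝ) / Nat.totient q) ^ 4 := by
        gcongr
    _ = _ := by ring

end Pool.Agent.FQ
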