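import Mathlib
import Pool.Agent.Lib.MP_f006b0_nt_h92.Sv

/-! Averages of the singular series. -/

set_option autoImplicit false
open Finset

namespace Pool.Agent.FQ

/-- `m / φ(m)` -/
noncomputable def rr (m : ℕ) : ℝ := (m : ℝ) / Nat.totient m

lemma rr_nonneg (m : ℕ) : 0 ≤ rr m := by unfold rr; positivity

lemma rr_mul (a b : ℕ) : rr (a * b) ≤ rr a * rr b := by
  unfold rr
  rcases Nat.eq_zero_or_pos a with rfl | ha
  · simp
  rcases Nat.eq_zero_or_pos b with rfl | hb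
  · simp
  have h1 : (0 : ℝ) < Nat.totient a := by exact_mod_cast Nat.totient_pos.2 ha
  have h2 : (0 : ℝ) < Nat.totient b := by exact_mod_cast Nat.totient_pos.2 hb
  have h3 : (Nat.totient a : ℝ) * Nat.totient b ≤ Nat.totient (a * b) := by
    exact_mod_cast Nat.totient_super_multiplicative a b
  rw [div_mul_div_comm]
  push_cast
  apply div_le_div_of_nonneg_left (by positivity) (by positivity) h3

lemma rr_six : rr 6 = 3 := by
  unfold rr
  have : Nat.totient 6 = 2 := by decide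
  rw [this]; norm_num

lemma prod_six (t : Fin 6 → ℝ) (ht : ∀ i, 0 ≤ t i) : ∏ i, t i ≤ ∑ i, t i ^ 6 := by
  obtain ⟨i0, _, hi0⟩ := Finset.exists_max_image (Finset.univ : Finset (Fin 6)) t ⟨0, mem_univ _⟩
  calc ∏ i, t i ≤ ∏ _i : Fin 6, t i0 :=
        Finset.prod_le_prod (fun i _ => ht i) (fun i hi => hi0 i hi)
    _ = t i0 ^ 6 := by simp
    _ ≤ _ := Finset.single_le_sum (f := fun i => t i ^ 6) (fun i _ => by
        have := ht i; positivity) (mem_univ i0)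

/-- `(m / φ(m))^24` -/
noncomputable def WW (m : ℕ) : ℝ := rr m ^ 24

lemma WW_nonneg (m : ℕ) : 0 ≤ WW m := by
  unfold WW; have := rr_nonneg m; positivity

lemma rr_qq (h1 h2 h3 : ℕ) : rr (qq h1 h2 h3) ^ 4 ≤ 81 * (WW h1 + WW (h1 + h2)
    + WW (h1 + h2 + h3) + WW h2 + WW (h2 + h3) + WW h3) := by
  have e1 : rr (qq h1 h2 h3) ≤ 3 * (rr h1 * rr (h1 + h2) * rr (h1 + h2 + h3) * rr h2
      * rr (h2 + h3) * rr h3) := by
    unfold qq
    refine (rr_mul _ _).trans ?_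
    rw [rr_six]
    apply mul_le_mul_of_nonneg_left _ (by norm_num)
    have m1 := rr_mul (h1 * (h1 + h2) * (h1 + h2 + h3) * h2 * (h2 + h3)) h3
    have m2 := rr_mul (h1 * (h1 + h2) * (h1 + h2 + h3) * h2) (h2 + h3)
    have m3 := rr_mul (h1 * (h1 + h2) * (h1 + h2 + h3)) h2
    have m4 := rr_mul (h1 * (h1 + h2)) (h1 + h2 + h3)
    have m5 := rr_mul h1 (h1 + h2)
    have n1 := rr_nonneg h3
    have n2 := rr_nonneg (h2 + h3)
    have n3 := rr_nonneg h2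
    have n4 := rr_nonneg (h1 + h2 + h3)
    refine m1.trans (mul_le_mul_of_nonneg_right ?_ n1)
    refine m2.trans (mul_le_mul_of_nonneg_right ?_ n2)
    refine m3.trans (mul_le_mul_of_nonneg_right ?_ n3)
    refine m4.trans (mul_le_mul_of_nonneg_right ?_ n4)
    exact m5
  have hp := prod_six ![rr h1 ^ 4, rr (h1 + h2) ^ 4, rr (h1 + h2 + h3) ^ 4, rr h2 ^ 4,
    rr (h2 + h3) ^ 4, rr h3 ^ 4] (by
      intro i
      have n1 := rr_nonneg h1
      have n2 := rr_nonneg (h1 + h2)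
      have n3 := rr_nonneg (h1 + h2 + h3)
      have n4 := rr_nonneg h2
      have n5 := rr_nonneg (h2 + h3)
      have n6 := rr_nonneg h3
      fin_cases i <;> simp <;> positivity)
  rw [Fin.prod_univ_six, Fin.sum_univ_six] at hp
  simp only [Matrix.cons_val] at hp
  have hn := rr_nonneg (qq h1 h2 h3)
  calc rr (qq h1 h2 h3) ^ 4 ≤ (3 * (rr h1 * rr (h1 + h2) * rr (h1 + h2 + h3) * rr h2
      * rr (h2 + h3) * rr h3)) ^ 4 := pow_le_pow_left₀ hn e1 4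
    _ = 81 * (rr h1 ^ 4 * rr (h1 + h2) ^ 4 * rr (h1 + h2 + h3) ^ 4 * rr h2 ^ 4
      * rr (h2 + h3) ^ 4 * rr h3 ^ 4) := by ring
    _ ≤ 81 * ((rr h1 ^ 4) ^ 6 + (rr (h1 + h2) ^ 4) ^ 6 + (rr (h1 + h2 + h3) ^ 4) ^ 6
      + (rr h2 ^ 4) ^ 6 + (rr (h2 + h3) ^ 4) ^ 6 + (rr h3 ^ 4) ^ 6) := by
        apply mul_le_mul_of_nonneg_left hp (by norm_num)
    _ = _ := by unfold WW; ring

lemma one_add_pow_le (n : ℕ) (v : ℝ) (h0 : 0 ≤ v) (h1 : v ≤ 1) :
    (1 + v) ^ n ≤ 1 + (2 ^ n - 1) * v := by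
  induction n with
  | zero => simp
  | succ n ih =>
    have h2 : (1 : ℝ) ≤ 2 ^ n := one_le_pow₀ (by norm_num)
    calc (1 + v) ^ (n + 1) = (1 + v) ^ n * (1 + v) := pow_succ _ _
      _ ≤ (1 + (2 ^ n - 1) * v) * (1 + v) := mul_le_mul_of_nonneg_right ih (by linarith)
      _ ≤ 1 + (2 ^ (n + 1) - 1) * v := by
        have h3 : (2 ^ n - 1) * v * v ≤ (2 ^ n - 1) * v * 1 :=
          mul_le_mul_of_nonneg_left h1 (mul_nonneg (by linarith) h0)
        rw [pow_succ]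
        nlinarith

/-- the local factor minus one -/
noncomputable def gg (p : ℕ) : ℝ := ((1 - (p : ℝ)⁻¹)⁻¹) ^ 24 - 1

lemma gg_bd (p : ℕ) (hp : 2 ≤ p) : 0 ≤ gg p ∧ gg p ≤ 2 ^ 25 / p := by
  have hp2 : (2 : ℝ) ≤ p := by exact_mod_cast hp
  have hp0 : (0 : ℝ) < p := by linarith
  have e : (1 - (p : ℝ)⁻¹)⁻¹ = 1 + 1 / ((p : ℝ) - 1) := by
    have : (p : ℝ) - 1 ≠ 0 := by linarith
    have h2 : 1 - (p : ℝ)⁻¹ = ((p : ℝ) - 1) / p := by field_simp
    rw [h2, inv_div]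
    field_simp
    ring
  have hv0 : 0 ≤ 1 / ((p : ℝ) - 1) := by apply div_nonneg zero_le_one; linarith
  have hv1 : 1 / ((p : ℝ) - 1) ≤ 1 := by
    rw [div_le_one (by linarith)]; linarith
  have hv2 : 1 / ((p : ℝ) - 1) ≤ 2 / p := by
    rw [div_le_div_iff₀ (by linarith) hp0]; linarith
  unfold gg
  rw [e]
  constructor
  · have : (1 : ℝ) ≤ (1 + 1 / ((p : ℝ) - 1)) ^ 24 := one_le_pow₀ (by linarith)
    linarith
  · have h := one_add_pow_le 24 _ hv0 hv1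
    have h3 : (2 ^ 24 - 1) * (1 / ((p : ℝ) - 1)) ≤ 2 ^ 24 * (2 / p) :=
      mul_le_mul (by norm_num) hv2 hv0 (by norm_num)
    have e2 : (2 : ℝ) ^ 24 * (2 / p) = 2 ^ 25 / p := by ring
    linarith

lemma WW_eq (m : ℕ) (hm : 1 ≤ m) : WW m = ∏ p ∈ m.primeFactors, (1 + gg p) := by
  have hmR : (0 : ℝ) < m := by exact_mod_cast hm
  have h6 : (Nat.totient m : ℝ) = (m : ℝ) * ∏ p ∈ m.primeFactors, (1 - (p : ℝ)⁻¹) := by
    have h2' := congrArg (fun q : ℚ => (q : ℝ)) (Nat.totient_eq_mul_prod_factors m)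
    push_cast at h2'
    exact h2'
  have h7 : ∀ p ∈ m.primeFactors, 1 + gg p = ((1 - (p : ℝ)⁻¹)⁻¹) ^ 24 := by
    intro p _
    unfold gg; ring
  rw [Finset.prod_congr rfl h7, Finset.prod_pow, Finset.prod_inv_distrib]
  unfold WW rr
  rw [h6]
  congr 1
  set Q := ∏ p ∈ m.primeFactors, (1 - (p : ℝ)⁻¹)
  rw [div_mul_eq_div_div, div_self hmR.ne', one_div]

/-- **Averages of `(m / φ(m))^24`.** -/
theorem sum_WW : ∃ C : ℝ, 0 < C ∧ ∀ M : ℕ, ∑ m ∈ Icc 1 M, WW m ≤ C * M := by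
  refine ⟨Real.exp (2 ^ 26), Real.exp_pos _, ?_⟩
  intro M
  classical
  set P : Finset ℕ := (range (M + 1)).filter Nat.Prime with hP
  have hPp : ∀ p ∈ P, p.Prime := fun p hp => (mem_filter.1 hp).2
  have h1 : ∀ m ∈ Icc 1 M, WW m
      = ∑ C ∈ P.powerset, if C ⊆ m.primeFactors then ∏ p ∈ C, gg p else 0 := by
    intro m hm
    obtain ⟨m1, m2⟩ := mem_Icc.1 hm
    rw [WW_eq m m1, Finset.prod_one_add, ← Finset.sum_filter]
    apply Finset.sum_congr _ (fun _ _ => rfl)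
    ext C
    rw [mem_powerset, mem_filter, mem_powerset]
    constructor
    · intro h
      refine ⟨fun p hp => ?_, h⟩
      have h3 := h hp
      rw [hP, mem_filter, mem_range]
      refine ⟨?_, Nat.prime_of_mem_primeFactors h3⟩
      have := Nat.le_of_dvd m1 (Nat.dvd_of_mem_primeFactors h3)
      omega
    · exact fun h => h.2
  rw [Finset.sum_congr rfl h1, Finset.sum_comm]
  have h2 : ∀ C ∈ P.powerset, ∑ m ∈ Icc 1 M, (if C ⊆ m.primeFactors then ∏ p ∈ C, gg p else 0)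
      ≤ M * ∏ p ∈ C, (gg p / p) := by
    intro C hC
    have hCp : ∀ p ∈ C, p.Prime := fun p hp => hPp p (mem_powerset.1 hC hp)
    have hg : 0 ≤ ∏ p ∈ C, gg p := Finset.prod_nonneg (fun p hp => (gg_bd p (hCp p hp).two_le).1)
    have hpos : 0 < ∏ p ∈ C, p := Finset.prod_pos (fun p hp => (hCp p hp).pos)
    have hposR : (0 : ℝ) < ∏ p ∈ C, (p : ℝ) := by
      rw [← Nat.cast_prod]; exact_mod_cast hpos
    rw [← Finset.sum_filter, Finset.sum_const, nsmul_eq_mul, Finset.prod_div_distrib]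
    have hcard : (((Icc 1 M).filter (fun m => C ⊆ m.primeFactors)).card : ℝ)
        ≤ M / ∏ p ∈ C, (p : ℝ) := by
      have hsub : (Icc 1 M).filter (fun m => C ⊆ m.primeFactors)
          ⊆ (Ioc 0 M).filter (fun m => (∏ p ∈ C, p) ∣ m) := by
        intro m hm
        obtain ⟨h3, h4⟩ := mem_filter.1 hm
        obtain ⟨m1, m2⟩ := mem_Icc.1 h3
        rw [mem_filter, mem_Ioc]
        refine ⟨⟨m1, m2⟩, ?_⟩
        apply Finset.prod_primes_dvd
        · intro p hp; exact (hCp p hp).prime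
        · intro p hp; exact Nat.dvd_of_mem_primeFactors (h4 hp)
      have h5 := Finset.card_le_card hsub
      rw [Nat.Ioc_filter_dvd_card_eq_div] at h5
      rw [← Nat.cast_prod]
      calc (((Icc 1 M).filter (fun m => C ⊆ m.primeFactors)).card : ℝ)
          ≤ ((M / ∏ p ∈ C, p : ℕ) : ℝ) := by exact_mod_cast h5
        _ ≤ _ := Nat.cast_div_le
    calc _ ≤ (M / ∏ p ∈ C, (p : ℝ)) * ∏ p ∈ C, gg p := mul_le_mul_of_nonneg_right hcard hg
      _ = _ := by ring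
  refine (Finset.sum_le_sum h2).trans ?_
  rw [← Finset.mul_sum, ← Finset.prod_one_add, mul_comm]
  apply mul_le_mul_of_nonneg_right _ (Nat.cast_nonneg M)
  have h3 : ∏ p ∈ P, (1 + gg p / p) ≤ ∏ p ∈ P, Real.exp (gg p / p) := by
    apply Finset.prod_le_prod
    · intro p hp
      have := (gg_bd p (hPp p hp).two_le).1
      positivity
    · intro p _
      have := Real.add_one_le_exp (gg p / p)
      linarith
  refine h3.trans ?_
  rw [← Real.exp_sum]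
  apply Real.exp_le_exp.2
  have h4 : ∀ p ∈ P, gg p / p ≤ 2 ^ 25 * ((p : ℝ) ^ 2)⁻¹ := by
    intro p hp
    have h5 := (gg_bd p (hPp p hp).two_le).2
    have hp0 : (0 : ℝ) < p := by exact_mod_cast (hPp p hp).pos
    calc gg p / p ≤ (2 ^ 25 / p) / p := by gcongr
      _ = _ := by field_simp
  refine (Finset.sum_le_sum h4).trans ?_
  rw [← Finset.mul_sum]
  have h6 : ∑ p ∈ P, ((p : ℝ) ^ 2)⁻¹ ≤ ∑ i ∈ Ioo 0 (M + 1), ((i : ℝ) ^ 2)⁻¹ := by
    apply Finset.sum_le_sum_of_subset_of_nonneg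
    · intro p hp
      rw [hP, mem_filter, mem_range] at hp
      exact mem_Ioo.2 ⟨hp.2.pos, hp.1⟩
    · intro i _ _; positivity
  have h7 : ∑ i ∈ Ioo 0 (M + 1), ((i : ℝ) ^ 2)⁻¹ ≤ 2 / ((0 : ℕ) + 1) := sum_Ioo_inv_sq_le 0 (M + 1)
  calc (2 : ℝ) ^ 25 * ∑ p ∈ P, ((p : ℝ) ^ 2)⁻¹ ≤ 2 ^ 25 * (2 / ((0 : ℕ) + 1)) :=
        mul_le_mul_of_nonneg_left (h6.trans h7) (by norm_num)
    _ = 2 ^ 26 := by norm_num

lemma inj_sum (H : ℕ) (C : ℝ) (hC : ∑ m ∈ Icc 1 H, WW m ≤ C * H) (K : Finset (ℕ × ℕ × ℕ))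
    (δ o : ℕ × ℕ × ℕ → ℕ) (hδ : ∀ k ∈ K, δ k ∈ Icc 1 H) (ho : ∀ k ∈ K, o k ∈ Icc 1 H)
    (hinj : ∀ k ∈ K, ∀ k' ∈ K, δ k = δ k' → o k = o k' → k = k') :
    ∑ k ∈ K, WW (δ k) ≤ C * H ^ 2 := by
  classical
  have h1 : ∑ k ∈ K, WW (δ k) = ∑ z ∈ K.image (fun k => (δ k, o k)), WW z.1 := by
    rw [Finset.sum_image]
    intro k hk k' hk' h
    simp only [Prod.mk.injEq] at h
    exact hinj k hk k' hk' h.1 h.2
  rw [h1]
  calc ∑ z ∈ K.image (fun k => (δ k, o k)), WW z.1 ≤ ∑ z ∈ Icc 1 H ×ˢ Icc 1 H, WW z.1 := by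
        apply Finset.sum_le_sum_of_subset_of_nonneg
        · intro z hz
          obtain ⟨k, hk, rfl⟩ := mem_image.1 hz
          exact mem_product.2 ⟨hδ k hk, ho k hk⟩
        · intro z _ _; exact WW_nonneg _
    _ = ∑ _o ∈ Icc 1 H, ∑ m ∈ Icc 1 H, WW m := by
        rw [Finset.sum_product_right]
    _ = H * ∑ m ∈ Icc 1 H, WW m := by
        rw [Finset.sum_const, Nat.card_Icc, nsmul_eq_mul]
        simp
    _ ≤ H * (C * H) := mul_le_mul_of_nonneg_left hC (Nat.cast_nonneg _)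
    _ = _ := by ring

theorem K_sum : ∃ C : ℝ, 0 < C ∧ ∀ (H d : ℕ) (K : Finset (ℕ × ℕ × ℕ)),
    (∀ k ∈ K, 1 ≤ k.1 ∧ 1 ≤ k.2.1 ∧ 1 ≤ k.2.2 ∧ k.1 + k.2.1 + k.2.2 ≤ H) →
    ((∀ k ∈ K, k.2.2 = k.1 + d) ∨ (∀ k ∈ K, k.1 = k.2.2 + d)) →
    ∑ k ∈ K, rr (qq k.1 k.2.1 k.2.2) ^ 4 ≤ C * (H : ℝ) ^ 2 := by
  obtain ⟨C, hC, h⟩ := sum_WW
  refine ⟨486 * C, by positivity, ?_⟩
  intro H d K hK hd
  have hM := h H
  have s1 := inj_sum H C hM K (fun k => k.1) (fun k => k.2.1)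
    (fun k hk => mem_Icc.2 (by have := hK k hk; omega))
    (fun k hk => mem_Icc.2 (by have := hK k hk; omega))
    (by
      rintro ⟨a, b, c⟩ hk ⟨a', b', c'⟩ hk' e1 e2
      simp only at e1 e2
      rcases hd with hd | hd <;> have f1 := hd _ hk <;> have f2 := hd _ hk' <;>
        simp only at f1 f2 <;> simp only [Prod.mk.injEq] <;> omega)
  have s2 := inj_sum H C hM K (fun k => k.1 + k.2.1) (fun k => k.1)
    (fun k hk => mem_Icc.2 (by have := hK k hk; omega))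
    (fun k hk => mem_Icc.2 (by have := hK k hk; omega))
    (by
      rintro ⟨a, b, c⟩ hk ⟨a', b', c'⟩ hk' e1 e2
      simp only at e1 e2
      rcases hd with hd | hd <;> have f1 := hd _ hk <;> have f2 := hd _ hk' <;>
        simp only at f1 f2 <;> simp only [Prod.mk.injEq] <;> omega)
  have s3 := inj_sum H C hM K (fun k => k.1 + k.2.1 + k.2.2) (fun k => k.1)
    (fun k hk => mem_Icc.2 (by have := hK k hk; omega))
    (fun k hk => mem_Icc.2 (by have := hK k hk; omega))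
    (by
      rintro ⟨a, b, c⟩ hk ⟨a', b', c'⟩ hk' e1 e2
      simp only at e1 e2
      rcases hd with hd | hd <;> have f1 := hd _ hk <;> have f2 := hd _ hk' <;>
        simp only at f1 f2 <;> simp only [Prod.mk.injEq] <;> omega)
  have s4 := inj_sum H C hM K (fun k => k.2.1) (fun k => k.1)
    (fun k hk => mem_Icc.2 (by have := hK k hk; omega))
    (fun k hk => mem_Icc.2 (by have := hK k hk; omega))
    (by
      rintro ⟨a, b, c⟩ hk ⟨a', b', c'⟩ hk' e1 e2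
      simp only at e1 e2
      rcases hd with hd | hd <;> have f1 := hd _ hk <;> have f2 := hd _ hk' <;>
        simp only at f1 f2 <;> simp only [Prod.mk.injEq] <;> omega)
  have s5 := inj_sum H C hM K (fun k => k.2.1 + k.2.2) (fun k => k.1)
    (fun k hk => mem_Icc.2 (by have := hK k hk; omega))
    (fun k hk => mem_Icc.2 (by have := hK k hk; omega))
    (by
      rintro ⟨a, b, c⟩ hk ⟨a', b', c'⟩ hk' e1 e2
      simp only at e1 e2
      rcases hd with hd | hd <;> have f1 := hd _ hk <;> have f2 := hd _ hk' <;>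
        simp only at f1 f2 <;> simp only [Prod.mk.injEq] <;> omega)
  have s6 := inj_sum H C hM K (fun k => k.2.2) (fun k => k.2.1)
    (fun k hk => mem_Icc.2 (by have := hK k hk; omega))
    (fun k hk => mem_Icc.2 (by have := hK k hk; omega))
    (by
      rintro ⟨a, b, c⟩ hk ⟨a', b', c'⟩ hk' e1 e2
      simp only at e1 e2
      rcases hd with hd | hd <;> have f1 := hd _ hk <;> have f2 := hd _ hk' <;>
        simp only at f1 f2 <;> simp only [Prod.mk.injEq] <;> omega)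
  calc ∑ k ∈ K, rr (qq k.1 k.2.1 k.2.2) ^ 4
      ≤ ∑ k ∈ K, 81 * (WW k.1 + WW (k.1 + k.2.1) + WW (k.1 + k.2.1 + k.2.2) + WW k.2.1
        + WW (k.2.1 + k.2.2) + WW k.2.2) := Finset.sum_le_sum (fun k _ => rr_qq _ _ _)
    _ = 81 * (∑ k ∈ K, WW k.1 + ∑ k ∈ K, WW (k.1 + k.2.1) + ∑ k ∈ K, WW (k.1 + k.2.1 + k.2.2)
        + ∑ k ∈ K, WW k.2.1 + ∑ k ∈ K, WW (k.2.1 + k.2.2) + ∑ k ∈ K, WW k.2.2) := by
        rw [← Finset.mul_sum]
        simp only [Finset.sum_add_distrib]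
    _ ≤ _ := by linarith

end Pool.Agent.FQ
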