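import Mathlib
import Pool.Agent.Lib.MP_f006b0_nt_h92.Av

/-! Positive proportion of the even numbers occur as absolute second differences. -/

set_option autoImplicit false
open Finset

namespace Pool.Agent.FQ

open scoped Nat.Prime

/-- the `k`-th prime, `pp 1 = 2` -/
noncomputable def pp (k : ℕ) : ℕ := Nat.nth Nat.Prime (k - 1)

/-- the second difference of the problem -/
noncomputable def sd (n : ℕ) : ℤ :=
  (pp (2 * n + 2) : ℤ) - pp (2 * n + 1) - pp (2 * n) + pp (2 * n - 1)

lemma pp_prime (k : ℕ) : (pp k).Prime := Nat.prime_nth_prime _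

lemma pp_lt {j k : ℕ} (hj : 1 ≤ j) (h : j < k) : pp j < pp k :=
  Nat.nth_strictMono Nat.infinite_setOfPred_prime (by omega)

lemma pp_le {j k : ℕ} (h : j ≤ k) : pp j ≤ pp k :=
  (Nat.nth_strictMono Nat.infinite_setOfPred_prime).monotone (by omega)

lemma pp_le_of {k x : ℕ} (hk : 1 ≤ k) (h : k ≤ π x) : pp k ≤ x := by
  have h1 : k - 1 < Nat.count Nat.Prime (x + 1) := by
    have : π x = Nat.count Nat.Prime (x + 1) := rfl
    omega
  have := Nat.nth_lt_of_lt_count h1
  unfold pp
  omega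

lemma pp_inj {j k : ℕ} (hj : 1 ≤ j) (hk : 1 ≤ k) (h : pp j = pp k) : j = k := by
  rcases lt_trichotomy j k with h' | h' | h'
  · exact absurd h (pp_lt hj h').ne
  · exact h'
  · exact absurd h.symm (pp_lt hk h').ne

lemma le_pp (k : ℕ) : k ≤ pp k := by
  have h : ∀ j : ℕ, j + 1 ≤ Nat.nth Nat.Prime j := by
    intro j
    induction j with
    | zero => have := (Nat.prime_nth_prime 0).two_le; omega
    | succ j ih =>
      have : Nat.nth Nat.Prime j < Nat.nth Nat.Prime (j + 1) :=
        Nat.nth_strictMono Nat.infinite_setOfPred_prime (Nat.lt_succ_self j)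
      omega
  have := h (k - 1)
  unfold pp
  omega

/-- the three gaps -/
noncomputable def gp (n : ℕ) : ℕ × ℕ × ℕ :=
  (pp (2 * n) - pp (2 * n - 1), pp (2 * n + 1) - pp (2 * n), pp (2 * n + 2) - pp (2 * n + 1))

lemma chain {n : ℕ} (hn : 1 ≤ n) : pp (2 * n - 1) < pp (2 * n) ∧ pp (2 * n) < pp (2 * n + 1) ∧
    pp (2 * n + 1) < pp (2 * n + 2) :=
  ⟨pp_lt (by omega) (by omega), pp_lt (by omega) (by omega), pp_lt (by omega) (by omega)⟩

lemma half_count (C1 C2 : ℝ) (hC1 : 0 < C1)
    (h1 : ∀ x h1 h2 h3 : ℕ, 2 ≤ x → 1 ≤ h1 → 1 ≤ h2 → 1 ≤ h3 →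
    (((Icc 1 x).filter (fun n => n.Prime ∧ (n + h1).Prime ∧ (n + (h1 + h2)).Prime ∧
      (n + (h1 + h2 + h3)).Prime)).card : ℝ)
      ≤ C1 * (x / (Real.log x) ^ 4) * ((qq h1 h2 h3 : ℝ) / Nat.totient (qq h1 h2 h3)) ^ 4)
    (h2 : ∀ (H d : ℕ) (K : Finset (ℕ × ℕ × ℕ)),
    (∀ k ∈ K, 1 ≤ k.1 ∧ 1 ≤ k.2.1 ∧ 1 ≤ k.2.2 ∧ k.1 + k.2.1 + k.2.2 ≤ H) →
    ((∀ k ∈ K, k.2.2 = k.1 + d) ∨ (∀ k ∈ K, k.1 = k.2.2 + d)) →
    ∑ k ∈ K, rr (qq k.1 k.2.1 k.2.2) ^ 4 ≤ C2 * (H : ℝ) ^ 2)
    (d x H : ℕ) (hx : 2 ≤ x) (S : Finset ℕ) (hS1 : ∀ n ∈ S, 1 ≤ n)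
    (hSx : ∀ n ∈ S, pp (2 * n + 2) ≤ x) (hSH : ∀ n ∈ S, pp (2 * n + 2) ≤ pp (2 * n - 1) + H)
    (hSd : (∀ n ∈ S, (gp n).2.2 = (gp n).1 + d) ∨ (∀ n ∈ S, (gp n).1 = (gp n).2.2 + d)) :
    (S.card : ℝ) ≤ C1 * C2 * (H ^ 2 * (x / (Real.log x) ^ 4)) := by
  classical
  have hcard := Finset.card_eq_sum_card_image gp S
  have hcard' : (S.card : ℝ) = ∑ b ∈ S.image gp, ((S.filter (fun n => gp n = b)).card : ℝ) := by
    exact_mod_cast hcard
  rw [hcard']
  have hK := h2 H d (S.image gp) (by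
    intro k hk
    obtain ⟨n, hn, rfl⟩ := mem_image.1 hk
    have hc := chain (hS1 n hn)
    have hH := hSH n hn
    unfold gp
    simp only
    omega) (by
    rcases hSd with h | h
    · left
      intro k hk
      obtain ⟨n, hn, rfl⟩ := mem_image.1 hk
      exact h n hn
    · right
      intro k hk
      obtain ⟨n, hn, rfl⟩ := mem_image.1 hk
      exact h n hn)
  have hfib : ∀ k ∈ S.image gp, ((S.filter (fun n => gp n = k)).card : ℝ)
      ≤ C1 * (x / (Real.log x) ^ 4) * rr (qq k.1 k.2.1 k.2.2) ^ 4 := by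
    intro k hk
    obtain ⟨m, hm, rfl⟩ := mem_image.1 hk
    have hcm := chain (hS1 m hm)
    refine le_trans ?_ (h1 x (gp m).1 (gp m).2.1 (gp m).2.2 hx (by unfold gp; simp only; omega)
      (by unfold gp; simp only; omega) (by unfold gp; simp only; omega))
    have hle : (S.filter (fun n => gp n = gp m)).card ≤ ((Icc 1 x).filter (fun n => n.Prime ∧
        (n + (gp m).1).Prime ∧ (n + ((gp m).1 + (gp m).2.1)).Prime ∧
        (n + ((gp m).1 + (gp m).2.1 + (gp m).2.2)).Prime)).card := by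
      apply Finset.card_le_card_of_injOn (fun n => pp (2 * n - 1))
      · intro n hn
        obtain ⟨hnS, hng⟩ := mem_filter.1 (Finset.mem_coe.1 hn)
        have hn1 := hS1 n hnS
        have hc := chain hn1
        have hx' := hSx n hnS
        rw [Finset.mem_coe, mem_filter, mem_Icc, ← hng]
        have e1 : pp (2 * n - 1) + (gp n).1 = pp (2 * n) := by unfold gp; simp only; omega
        have e2 : pp (2 * n - 1) + ((gp n).1 + (gp n).2.1) = pp (2 * n + 1) := by
          unfold gp; simp only; omega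
        have e3 : pp (2 * n - 1) + ((gp n).1 + (gp n).2.1 + (gp n).2.2) = pp (2 * n + 2) := by
          unfold gp; simp only; omega
        beta_reduce
        rw [e1, e2, e3]
        exact ⟨⟨(pp_prime _).one_lt.le, by omega⟩, pp_prime _, pp_prime _, pp_prime _, pp_prime _⟩
      · intro n hn n' hn' h
        have hn1 := hS1 n (mem_filter.1 (Finset.mem_coe.1 hn)).1
        have hn1' := hS1 n' (mem_filter.1 (Finset.mem_coe.1 hn')).1
        have := pp_inj (by omega) (by omega) h
        omega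
    exact_mod_cast hle
  refine (Finset.sum_le_sum hfib).trans ?_
  rw [← Finset.mul_sum]
  have hnn : 0 ≤ C1 * (x / (Real.log x) ^ 4) := by positivity
  calc _ ≤ C1 * (x / (Real.log x) ^ 4) * (C2 * (H : ℝ) ^ 2) := mul_le_mul_of_nonneg_left hK hnn
    _ = _ := by ring

/-- few `n` with a given value of `|sd n|` and small span -/
theorem fiber_count : ∃ C : ℝ, 0 < C ∧ ∀ d x H N : ℕ, 2 ≤ x → pp (2 * N + 2) ≤ x →
    (((Icc 1 N).filter (fun n => |sd n| = d ∧ pp (2 * n + 2) ≤ pp (2 * n - 1) + H)).card : ℝ)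
      ≤ C * (H ^ 2 * (x / (Real.log x) ^ 4)) := by
  obtain ⟨C1, hC1, h1⟩ := quad_count
  obtain ⟨C2, hC2, h2⟩ := K_sum
  refine ⟨2 * (C1 * C2), by positivity, ?_⟩
  intro d x H N hx hN
  classical
  set S := (Icc 1 N).filter (fun n => |sd n| = d ∧ pp (2 * n + 2) ≤ pp (2 * n - 1) + H) with hS
  have hmem : ∀ n ∈ S, 1 ≤ n ∧ pp (2 * n + 2) ≤ x ∧ |sd n| = d ∧
      pp (2 * n + 2) ≤ pp (2 * n - 1) + H := by
    intro n hn
    obtain ⟨h3, h4, h5⟩ := mem_filter.1 hn
    obtain ⟨h6, h7⟩ := mem_Icc.1 h3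
    exact ⟨h6, (pp_le (by omega)).trans hN, h4, h5⟩
  have hP := half_count C1 C2 hC1 h1 h2 d x H hx (S.filter (fun n => (gp n).2.2 = (gp n).1 + d))
    (fun n hn => (hmem n (mem_filter.1 hn).1).1) (fun n hn => (hmem n (mem_filter.1 hn).1).2.1)
    (fun n hn => (hmem n (mem_filter.1 hn).1).2.2.2) (Or.inl (fun n hn => (mem_filter.1 hn).2))
  have hM := half_count C1 C2 hC1 h1 h2 d x H hx (S.filter (fun n => (gp n).1 = (gp n).2.2 + d))
    (fun n hn => (hmem n (mem_filter.1 hn).1).1) (fun n hn => (hmem n (mem_filter.1 hn).1).2.1)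
    (fun n hn => (hmem n (mem_filter.1 hn).1).2.2.2) (Or.inr (fun n hn => (mem_filter.1 hn).2))
  have hsub : S ⊆ (S.filter (fun n => (gp n).2.2 = (gp n).1 + d)) ∪
      (S.filter (fun n => (gp n).1 = (gp n).2.2 + d)) := by
    intro n hn
    obtain ⟨h3, h4, h5, h6⟩ := hmem n hn
    have hc := chain h3
    rw [mem_union]
    rcases (abs_eq (by positivity)).1 h5 with h | h
    · left
      refine mem_filter.2 ⟨hn, ?_⟩
      unfold sd at h
      unfold gp
      simp only
      omega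
    · right
      refine mem_filter.2 ⟨hn, ?_⟩
      unfold sd at h
      unfold gp
      simp only
      omega
  have h3 := (Finset.card_le_card hsub).trans (Finset.card_union_le _ _)
  have h4 : (S.card : ℝ) ≤ ((S.filter (fun n => (gp n).2.2 = (gp n).1 + d)).card : ℝ) +
      ((S.filter (fun n => (gp n).1 = (gp n).2.2 + d)).card : ℝ) := by exact_mod_cast h3
  linarith

lemma sum_span (N : ℕ) : ∑ n ∈ Icc 1 N, ((pp (2 * n + 2) : ℝ) - pp (2 * n - 1))
    ≤ (pp (2 * N + 1) : ℝ) + pp (2 * N + 2) := by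
  induction N with
  | zero => simp; positivity
  | succ N ih =>
    rw [Finset.sum_Icc_succ_top (by omega)]
    have e1 : 2 * (N + 1) - 1 = 2 * N + 1 := by omega
    rw [e1]
    have h1 : (pp (2 * N + 2) : ℝ) ≤ pp (2 * (N + 1) + 1) := by
      exact_mod_cast pp_le (by omega)
    linarith

/-- few large spans -/
lemma big_span (N x H : ℕ) (hN : pp (2 * N + 2) ≤ x) (hH : 1 ≤ H) :
    (((Icc 1 N).filter (fun n => ¬ pp (2 * n + 2) ≤ pp (2 * n - 1) + H)).card : ℝ)
      ≤ 2 * x / H := by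
  have hHR : (0 : ℝ) < H := by exact_mod_cast hH
  rw [le_div_iff₀ hHR]
  have h1 := sum_span N
  have h2 : (pp (2 * N + 1) : ℝ) ≤ x := by exact_mod_cast (pp_le (by omega)).trans hN
  have h3 : (pp (2 * N + 2) : ℝ) ≤ x := by exact_mod_cast hN
  have h4 : (((Icc 1 N).filter (fun n => ¬ pp (2 * n + 2) ≤ pp (2 * n - 1) + H)).card : ℝ) * H
      ≤ ∑ n ∈ (Icc 1 N).filter (fun n => ¬ pp (2 * n + 2) ≤ pp (2 * n - 1) + H),
        ((pp (2 * n + 2) : ℝ) - pp (2 * n - 1)) := by
    rw [← nsmul_eq_mul]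
    apply Finset.card_nsmul_le_sum
    intro n hn
    have h5 := (mem_filter.1 hn).2
    have h6 : pp (2 * n - 1) + H ≤ pp (2 * n + 2) := by omega
    have h7 : ((pp (2 * n - 1) : ℝ) + H) ≤ pp (2 * n + 2) := by exact_mod_cast h6
    linarith
  have h5 : ∑ n ∈ (Icc 1 N).filter (fun n => ¬ pp (2 * n + 2) ≤ pp (2 * n - 1) + H),
        ((pp (2 * n + 2) : ℝ) - pp (2 * n - 1))
      ≤ ∑ n ∈ Icc 1 N, ((pp (2 * n + 2) : ℝ) - pp (2 * n - 1)) := by
    apply Finset.sum_le_sum_of_subset_of_nonneg (Finset.filter_subset _ _)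
    intro n hn _
    have : (pp (2 * n - 1) : ℝ) ≤ pp (2 * n + 2) := by exact_mod_cast pp_le (by omega)
    linarith
  linarith

lemma sd_even {n : ℕ} (hn : 2 ≤ n) : Even (sd n) := by
  have hodd : ∀ k, 2 ≤ k → Odd (pp k) := by
    intro k hk
    apply (pp_prime k).odd_of_ne_two
    have h1 := pp_lt (le_refl 1) (show 1 < k by omega)
    have h2 := (pp_prime 1).two_le
    omega
  obtain ⟨a, ha⟩ := hodd (2 * n + 2) (by omega)
  obtain ⟨b, hb⟩ := hodd (2 * n + 1) (by omega)
  obtain ⟨c, hc⟩ := hodd (2 * n) (by omega)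
  obtain ⟨e, he⟩ := hodd (2 * n - 1) (by omega)
  unfold sd
  rw [ha, hb, hc, he]
  exact ⟨(a : ℤ) - b - c + e, by push_cast; ring⟩

lemma pi_low : ∃ N0 : ℕ, ∀ n : ℕ, N0 ≤ n → (1 / 2 : ℝ) * (n / Real.log n) ≤ (π n : ℝ) := by
  have h1 : ∀ᶠ y : ℝ in Filter.atTop, ‖Real.log y‖ ≤ (1 / 10 : ℝ) * ‖id y‖ :=
    Real.isLittleO_log_id_atTop.bound (by norm_num)
  obtain ⟨Y, hY⟩ := Filter.eventually_atTop.1 h1
  refine ⟨max 10 ⌈Y⌉₊, ?_⟩
  intro n hn
  have hn10 : 10 ≤ n := (le_max_left _ _).trans hn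
  have hnY : Y ≤ n := (Nat.le_ceil Y).trans (by exact_mod_cast (le_max_right _ _).trans hn)
  have hnR : (10 : ℝ) ≤ n := by exact_mod_cast hn10
  have h2 := hY ((n : ℝ) + 1) (by linarith)
  have hlog1 : 0 ≤ Real.log ((n : ℝ) + 1) := Real.log_nonneg (by linarith)
  rw [Real.norm_of_nonneg hlog1, id, Real.norm_of_nonneg (by linarith)] at h2
  have h3 := Chebyshev.pi_ge n
  have hlog : 0 < Real.log n := Real.log_pos (by linarith)
  have hl2 := Real.log_two_gt_d9
  refine le_trans ?_ h3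
  rw [← mul_div_assoc]
  apply div_le_div_of_nonneg_right _ hlog.le
  nlinarith

/-- **Positive proportion.** -/
theorem positive_proportion : ∃ c : ℝ, 0 < c ∧ ∃ X0 : ℝ, ∀ X : ℕ, X0 ≤ X →
    c * X ≤ (((Icc 1 X).filter (fun d : ℕ => Even d ∧
      Real.exp (c * X) ≤
        (((Icc 1 ⌊Real.exp X⌋₊).filter (fun n => |sd n| = (d : ℤ))).card : ℝ))).card : ℝ) := by
  obtain ⟨C, hC, hcount⟩ := fiber_count
  obtain ⟨N0, hN0⟩ := pi_low
  -- constants
  set C1 : ℝ := 2 ^ 14 * C with hC1
  have hC1p : 0 < C1 := by positivity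
  refine ⟨min (1 / 64) (1 / (256 * C1)), by positivity, max (32 * 98304) (max (32 * (64 * C1))
    (32 * Real.log (N0 + 1))), ?_⟩
  intro X hX
  set c := min (1 / 64) (1 / (256 * C1)) with hc
  have hX1 : 32 * 98304 ≤ (X : ℝ) := (le_max_left _ _).trans hX
  have hX2 : 32 * (64 * C1) ≤ (X : ℝ) :=
    (le_max_left _ _).trans ((le_max_right _ _).trans hX)
  have hX3 : 32 * Real.log (N0 + 1) ≤ (X : ℝ) :=
    (le_max_right _ _).trans ((le_max_right _ _).trans hX)
  set t : ℝ := (X : ℝ) / 32 with ht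
  have hXt : (X : ℝ) = 32 * t := by rw [ht]; ring
  have ht1 : 98304 ≤ t := by linarith
  have ht2 : 64 * C1 ≤ t := by linarith
  have ht3 : Real.log (N0 + 1) ≤ t := by linarith
  have ht0 : 0 < t := by linarith
  set x := ⌊Real.exp t⌋₊ with hx
  have hexp3 : (N0 : ℝ) + 1 ≤ Real.exp t := by
    have : Real.exp (Real.log (N0 + 1)) ≤ Real.exp t := Real.exp_le_exp.2 ht3
    rwa [Real.exp_log (by positivity)] at this
  have hexph : 2048 * t ^ 2 ≤ Real.exp (t / 2) := by
    have h := Real.pow_div_factorial_le_exp (t / 2) (by positivity) 3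
    have e : ((Nat.factorial 3 : ℕ) : ℝ) = 6 := by norm_num [Nat.factorial]
    rw [e] at h
    have h2 : 2048 * t ^ 2 ≤ (t / 2) ^ 3 / 6 := by
      have : (t / 2) ^ 3 / 6 = t ^ 2 * (t / 48) := by ring
      rw [this]
      nlinarith [sq_nonneg t]
    linarith
  have hexpt : Real.exp t = Real.exp (t / 2) * Real.exp (t / 2) := by
    rw [← Real.exp_add]; congr 1; ring
  have hexp_big : 2048 * t ^ 2 * (2048 * t ^ 2) ≤ Real.exp t := by
    rw [hexpt]
    exact mul_le_mul hexph hexph (by positivity) (by positivity)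
  have hxle : (x : ℝ) ≤ Real.exp t := Nat.floor_le (Real.exp_pos t).le
  have hxge1 : Real.exp t - 1 < x := Nat.sub_one_lt_floor _
  have hbig2 : 2 * (1000 * t) ≤ Real.exp t := by
    have : (2000 : ℝ) * t ≤ 2048 * t ^ 2 * (2048 * t ^ 2) := by
      have h1 : 1 ≤ t ^ 2 := one_le_pow₀ (by linarith)
      have h2 : t ≤ t ^ 2 := by nlinarith
      nlinarith [mul_pos ht0 ht0, sq_nonneg t]
    linarith
  have hxge : Real.exp t / 2 ≤ x := by linarith
  have hxN0 : N0 ≤ x := by
    apply Nat.le_floor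
    linarith
  have hxpos : (0 : ℝ) < x := by linarith [Real.exp_pos t]
  have hx1000 : 1000 * t ≤ x := by linarith
  have hx2 : 2 ≤ x := by
    have : (2 : ℝ) ≤ x := by linarith
    exact_mod_cast this
  have hlogle : Real.log x ≤ t := by
    rw [← Real.log_exp t]
    exact Real.log_le_log hxpos hxle
  have hlogge : t / 2 ≤ Real.log x := by
    have h1 : Real.exp (t / 2) ≤ x := by
      refine le_trans ?_ hxge
      rw [hexpt]
      have : 2 ≤ Real.exp (t / 2) := by
        have h1 : 1 ≤ t ^ 2 := one_le_pow₀ (by linarith)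
        linarith
      have h2 := Real.exp_pos (t / 2)
      nlinarith
    rw [← Real.log_exp (t / 2)]
    exact Real.log_le_log (Real.exp_pos _) h1
  have hlogpos : 0 < Real.log x := by linarith
  -- the number of indices
  have hpi : (1 / 2 : ℝ) * (x / t) ≤ (π x : ℝ) := by
    refine le_trans ?_ (hN0 x hxN0)
    apply mul_le_mul_of_nonneg_left _ (by norm_num)
    exact div_le_div_of_nonneg_left hxpos.le hlogpos hlogle
  have hxt : 1000 ≤ (x : ℝ) / t := by
    rw [le_div_iff₀ ht0]; exact hx1000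
  have hpi2 : 4 ≤ π x := by
    have : (4 : ℝ) ≤ (π x : ℝ) := by linarith
    exact_mod_cast this
  set N := π x / 2 - 1 with hN
  have hN2 : 2 * N + 2 ≤ π x := by omega
  have hNge : (π x : ℝ) / 2 - 3 / 2 ≤ N := by
    have : π x ≤ 2 * N + 3 := by omega
    have h2 : (π x : ℝ) ≤ 2 * N + 3 := by exact_mod_cast this
    linarith
  have hppN : pp (2 * N + 2) ≤ x := pp_le_of (by omega) hN2
  have hXpos : 1 ≤ X := by
    have : (1 : ℝ) ≤ X := by linarith
    exact_mod_cast this
  have hbad := big_span N x X hppN hXpos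
  -- fibers
  set B : ℝ := C1 * (x / t ^ 2) with hB
  have hfib : ∀ d : ℕ, (((Icc 1 N).filter (fun n => |sd n| = d ∧
      pp (2 * n + 2) ≤ pp (2 * n - 1) + X)).card : ℝ) ≤ B := by
    intro d
    refine (hcount d x X N hx2 hppN).trans ?_
    rw [hB, hC1, hXt]
    have h1 : (t / 2) ^ 4 ≤ (Real.log x) ^ 4 := pow_le_pow_left₀ (by positivity) hlogge 4
    calc C * ((32 * t) ^ 2 * (x / Real.log x ^ 4))
        ≤ C * ((32 * t) ^ 2 * (x / (t / 2) ^ 4)) := by
          apply mul_le_mul_of_nonneg_left _ hC.le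
          apply mul_le_mul_of_nonneg_left _ (by positivity)
          exact div_le_div_of_nonneg_left hxpos.le (by positivity) h1
      _ = 2 ^ 14 * C * (x / t ^ 2) := by field_simp; ring
  -- the good indices
  set G := (Icc 1 N).filter (fun n => pp (2 * n + 2) ≤ pp (2 * n - 1) + X) with hG
  have hGcard : (3 / 16 : ℝ) * (x / t) - 3 / 2 ≤ (G.card : ℝ) := by
    have h1 : G.card + ((Icc 1 N).filter (fun n =>
        ¬ pp (2 * n + 2) ≤ pp (2 * n - 1) + X)).card = (Icc 1 N).card :=
      Finset.card_filter_add_card_filter_not (s := Icc 1 N)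
      (fun n => pp (2 * n + 2) ≤ pp (2 * n - 1) + X)
    rw [Nat.card_Icc] at h1
    have h2 : (G.card : ℝ) + (((Icc 1 N).filter (fun n =>
        ¬ pp (2 * n + 2) ≤ pp (2 * n - 1) + X)).card : ℝ) = N := by
      have : G.card + ((Icc 1 N).filter (fun n =>
        ¬ pp (2 * n + 2) ≤ pp (2 * n - 1) + X)).card = N := by omega
      exact_mod_cast this
    have h3 : 2 * (x : ℝ) / X = (1 / 16) * (x / t) := by
      rw [hXt]; field_simp; norm_num
    rw [h3] at hbad
    linarith
  -- the set of frequent values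
  set M := ⌊Real.exp X⌋₊ with hM
  set D := (Icc 1 X).filter (fun d : ℕ => Even d ∧
      Real.exp (c * X) ≤ (((Icc 1 M).filter (fun n => |sd n| = (d : ℤ))).card : ℝ)) with hD
  have hNM : N ≤ M := by
    have h1 : N ≤ x := by
      have h2 := le_pp (2 * N + 2)
      omega
    have h3 : x ≤ M := by
      apply Nat.floor_mono
      apply Real.exp_le_exp.2
      rw [hXt]; linarith
    omega
  -- threshold
  set T : ℝ := x / (32 * X * t) with hT
  have hXR : (0 : ℝ) < X := by rw [hXt]; positivity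
  have hTexp : Real.exp (c * X) ≤ T := by
    have h1 : c * X ≤ t / 2 := by
      have : c ≤ 1 / 64 := min_le_left _ _
      calc c * X ≤ 1 / 64 * X := mul_le_mul_of_nonneg_right this hXR.le
        _ = t / 2 := by rw [hXt]; ring
    refine (Real.exp_le_exp.2 h1).trans ?_
    rw [hT, le_div_iff₀ (by positivity), hXt]
    calc Real.exp (t / 2) * (32 * (32 * t) * t) = Real.exp (t / 2) * (1024 * t ^ 2) := by ring
      _ ≤ Real.exp (t / 2) * (Real.exp (t / 2) / 2) := by
          apply mul_le_mul_of_nonneg_left _ (Real.exp_pos _).le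
          linarith
      _ = Real.exp t / 2 := by rw [hexpt]; ring
      _ ≤ x := hxge
  -- the counting
  have hcover : (G.card : ℝ) ≤ 1 + B + X * T + (D.card : ℝ) * B := by
    set F : ℕ → Finset ℕ := fun d => (Icc 1 N).filter (fun n => |sd n| = (d : ℤ) ∧
      pp (2 * n + 2) ≤ pp (2 * n - 1) + X) with hF
    have hsub : G ⊆ {1} ∪ (F 0 ∪ (((Icc 1 X).filter (fun d => d ∉ D ∧ Even d)).biUnion F
        ∪ D.biUnion F)) := by
      intro n hn
      obtain ⟨h1, h2⟩ := mem_filter.1 hn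
      obtain ⟨h3, h4⟩ := mem_Icc.1 h1
      by_cases hn1 : n = 1
      · rw [mem_union]; left; rw [hn1]; exact mem_singleton_self 1
      have hn2 : 2 ≤ n := by omega
      have hch := chain h3
      have hev := sd_even hn2
      have hkey : ∃ d : ℕ, |sd n| = (d : ℤ) := ⟨(sd n).natAbs, by simp⟩
      obtain ⟨d, hd⟩ := hkey
      have hdX : d ≤ X := by
        have h5 : |sd n| ≤ X := by
          unfold sd
          rw [abs_le]
          constructor <;> omega
        rw [hd] at h5
        exact_mod_cast h5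
      have hde : Even d := by
        have h5 : Even |sd n| := by rwa [even_abs]
        rw [hd] at h5
        exact_mod_cast h5
      have hnF : n ∈ F d := mem_filter.2 ⟨h1, hd, h2⟩
      rw [mem_union]; right
      rw [mem_union]
      by_cases hd0 : d = 0
      · left; rw [hd0] at hnF; exact hnF
      · right
        rw [mem_union]
        by_cases hdD : d ∈ D
        · right; exact mem_biUnion.2 ⟨d, hdD, hnF⟩
        · left
          refine mem_biUnion.2 ⟨d, ?_, hnF⟩
          exact mem_filter.2 ⟨mem_Icc.2 ⟨by omega, hdX⟩, hdD, hde⟩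
    have hcard := Finset.card_le_card hsub
    have hc1 := Finset.card_union_le {1} (F 0 ∪ (((Icc 1 X).filter
      (fun d => d ∉ D ∧ Even d)).biUnion F ∪ D.biUnion F))
    have hc2 := Finset.card_union_le (F 0) (((Icc 1 X).filter
      (fun d => d ∉ D ∧ Even d)).biUnion F ∪ D.biUnion F)
    have hc3 := Finset.card_union_le (((Icc 1 X).filter
      (fun d => d ∉ D ∧ Even d)).biUnion F) (D.biUnion F)
    rw [Finset.card_singleton] at hc1
    have hF0 := hfib 0
    have hb1 : ((((Icc 1 X).filter (fun d => d ∉ D ∧ Even d)).biUnion F).card : ℝ) ≤ X * T := by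
      have h1 : ((((Icc 1 X).filter (fun d => d ∉ D ∧ Even d)).biUnion F).card : ℝ)
          ≤ ∑ d ∈ (Icc 1 X).filter (fun d => d ∉ D ∧ Even d), ((F d).card : ℝ) := by
        exact_mod_cast Finset.card_biUnion_le
      refine h1.trans ?_
      calc ∑ d ∈ (Icc 1 X).filter (fun d => d ∉ D ∧ Even d), ((F d).card : ℝ)
          ≤ ∑ _d ∈ (Icc 1 X).filter (fun d => d ∉ D ∧ Even d), T := by
            apply Finset.sum_le_sum
            intro d hd
            obtain ⟨hd1, hd2, hd3⟩ := mem_filter.1 hd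
            have h5 : ¬ Real.exp (c * X) ≤
                (((Icc 1 M).filter (fun n => |sd n| = (d : ℤ))).card : ℝ) := by
              intro h
              exact hd2 (mem_filter.2 ⟨hd1, hd3, h⟩)
            have h6 : ((F d).card : ℝ) ≤
                (((Icc 1 M).filter (fun n => |sd n| = (d : ℤ))).card : ℝ) := by
              have : (F d).card ≤ ((Icc 1 M).filter (fun n => |sd n| = (d : ℤ))).card := by
                apply Finset.card_le_card
                intro n hn
                obtain ⟨h7, h8, _⟩ := mem_filter.1 hn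
                obtain ⟨h9, h10⟩ := mem_Icc.1 h7
                exact mem_filter.2 ⟨mem_Icc.2 ⟨h9, h10.trans hNM⟩, h8⟩
              exact_mod_cast this
            push Not at h5
            linarith
        _ = (((Icc 1 X).filter (fun d => d ∉ D ∧ Even d)).card : ℝ) * T := by
            rw [Finset.sum_const, nsmul_eq_mul]
        _ ≤ X * T := by
            apply mul_le_mul_of_nonneg_right _ (by positivity)
            have h7 : ((Icc 1 X).filter (fun d => d ∉ D ∧ Even d)).card ≤ (Icc 1 X).card :=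
              Finset.card_filter_le _ _
            rw [Nat.card_Icc] at h7
            have h8 : ((Icc 1 X).filter (fun d => d ∉ D ∧ Even d)).card ≤ X := by omega
            exact_mod_cast h8
    have hb2 : ((D.biUnion F).card : ℝ) ≤ (D.card : ℝ) * B := by
      have h1 : ((D.biUnion F).card : ℝ) ≤ ∑ d ∈ D, ((F d).card : ℝ) := by
        exact_mod_cast Finset.card_biUnion_le
      refine h1.trans ?_
      rw [← nsmul_eq_mul]
      apply Finset.sum_le_card_nsmul
      intro d _
      exact hfib d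
    have htot : (G.card : ℝ) ≤ 1 + ((F 0).card + ((((Icc 1 X).filter
        (fun d => d ∉ D ∧ Even d)).biUnion F).card + (D.biUnion F).card)) := by
      have : G.card ≤ 1 + ((F 0).card + ((((Icc 1 X).filter
        (fun d => d ∉ D ∧ Even d)).biUnion F).card + (D.biUnion F).card)) := by omega
      exact_mod_cast this
    linarith
  have hXT : (X : ℝ) * T = (1 / 32) * (x / t) := by
    rw [hT]; field_simp
  have hBsmall : B ≤ (1 / 64) * (x / t) := by
    rw [hB]
    have h1 : (x : ℝ) / t ^ 2 = (x / t) * (1 / t) := by field_simp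
    rw [h1]
    have h2 : C1 * (1 / t) ≤ 1 / 64 := by
      rw [mul_one_div, div_le_div_iff₀ ht0 (by norm_num)]
      linarith
    calc C1 * (x / t * (1 / t)) = (C1 * (1 / t)) * (x / t) := by ring
      _ ≤ _ := mul_le_mul_of_nonneg_right h2 (by positivity)
  have hDB : (1 / 8 : ℝ) * (x / t) ≤ (D.card : ℝ) * B := by
    rw [hXT] at hcover
    linarith
  have hfin : t / (8 * C1) ≤ (D.card : ℝ) := by
    rw [div_le_iff₀ (by positivity)]
    have h1 : (D.card : ℝ) * B = ((D.card : ℝ) * C1) * (x / t ^ 2) := by rw [hB]; ring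
    rw [h1] at hDB
    have h2 : (1 / 8 : ℝ) * (x / t) = (t / 8) * (x / t ^ 2) := by field_simp
    rw [h2] at hDB
    have h3 : 0 < (x : ℝ) / t ^ 2 := by positivity
    have h4 := le_of_mul_le_mul_right hDB h3
    linarith
  have hcle : c * X ≤ t / (8 * C1) := by
    have : c ≤ 1 / (256 * C1) := min_le_right _ _
    calc c * X ≤ 1 / (256 * C1) * X := mul_le_mul_of_nonneg_right this hXR.le
      _ = t / (8 * C1) := by rw [hXt]; field_simp; norm_num
  exact hcle.trans hfin

end Pool.Agent.FQ
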